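import Mathlib

/-! Statements of the general parts of the proof of the coefficient bounds for alpha-convex
functions (MP_1f2de8_an). Each `...Stmt` is a proposition to be proved in its own file. -/

set_option autoImplicit false

namespace Pool.Agent.TH337.AC

open Complex Filter Topology Bornology Metric Set

/-- Jack's lemma, local form. -/
def JackStmt : Prop :=
  ∀ (ω : ℂ → ℂ) (z₀ : ℂ), z₀ ≠ 0 → (∀ᶠ z in 𝓝 z₀, DifferentiableAt ℂ ω z) → ‖ω z₀‖ = 1 →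
    (∀ᶠ z in 𝓝 z₀, ‖z‖ < ‖z₀‖ → ‖ω z‖ ≤ ‖z‖ / ‖z₀‖) →
    ∃ m : ℝ, 1 ≤ m ∧ z₀ * deriv ω z₀ = m * ω z₀

/-- First-touch lemma for the real part in the right half-plane; here `(w ^ 2 - 1) / 2 * S'(w)` is
`z * d/dz` for `w = (1 + z) / (1 - z)`. -/
def MMStmt : Prop :=
  ∀ (S : ℂ → ℂ) (s₀ : ℝ), 0 < s₀ → DifferentiableOn ℂ S {w | 0 < w.re} → S 1 = s₀ →
    (∀ w : ℂ, 0 < w.re → (S w).re = 0 → ((w ^ 2 - 1) / 2 * deriv S w).im = 0 →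
      -(s₀ ^ 2 + (S w).im ^ 2) / (2 * s₀) < ((w ^ 2 - 1) / 2 * deriv S w).re) →
    ∀ w : ℂ, 0 < w.re → 0 < (S w).re

/-- Subordination to a function of the closed right half-plane. -/
def SubStmt : Prop :=
  ∀ (Ψ : ℂ → ℂ), (∀ w : ℂ, 0 ≤ w.re → AnalyticAt ℂ Ψ w) → InjOn Ψ {w | 0 ≤ w.re} →
    (∀ w : ℂ, 0 ≤ w.re → deriv Ψ w ≠ 0) →
    Tendsto (fun w => ‖Ψ w‖) (cobounded ℂ ⊓ 𝓟 {w | 0 ≤ w.re}) atTop →
    ∀ (g : ℂ → ℂ), DifferentiableOn ℂ g (ball 0 1) → g 0 = Ψ 1 →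
    (∀ z ∈ ball (0 : ℂ) 1, ∀ τ m : ℝ, 1 ≤ m → g z = Ψ (τ * I) →
      z * deriv g z ≠ -(m * ((1 + τ ^ 2) / 2)) * deriv Ψ (τ * I)) →
    ∀ z ∈ ball (0 : ℂ) 1, ∃ w : ℂ, 0 < w.re ∧ g z = Ψ w

/-- Starlike functions `z * exp (lam z)`: no value is a multiple `m ≥ 1` of a value at a point of
larger or equal modulus. -/
def LogLiftStmt : Prop :=
  ∀ (lam : ℂ → ℂ), DifferentiableOn ℂ lam (ball 0 1) →
    (∀ z ∈ ball (0 : ℂ) 1, 0 < (1 + z * deriv lam z).re) →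
    ∀ z₁ z₂ : ℂ, z₁ ∈ ball (0 : ℂ) 1 → z₁ ≠ 0 → ‖z₂‖ ≤ 1 → ‖z₁‖ ≤ ‖z₂‖ →
    ContinuousWithinAt lam (ball 0 1) z₂ → ∀ m : ℝ, 1 ≤ m →
    z₁ * exp (lam z₁) = m * (z₂ * exp (lam z₂)) → z₁ = z₂

/-- Coefficients of functions of positive real part. -/
def CaraStmt : Prop :=
  ∀ (p : ℂ → ℂ), DifferentiableOn ℂ p (ball 0 1) → p 0 = 1 →
    (∀ z ∈ ball (0 : ℂ) 1, 0 < (p z).re) →
    ∀ n : ℕ, n ≠ 0 → ‖iteratedDeriv n p 0‖ ≤ 2 * n.factorial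

/-- The hull lemma: `B` maps the unit circle minus `1` into a closed convex set `C`, and `F` omits
`C`; then the coefficients of `F` are dominated by those of `B`. -/
def HullStmt : Prop :=
  ∀ (B F : ℂ → ℂ) (C : Set ℂ) (K c : ℝ) (b : ℕ → ℝ), 0 < c →
    DifferentiableOn ℂ B (ball 0 1) → ContinuousOn B (closedBall 0 1 \ {1}) →
    (∀ z ∈ closedBall (0 : ℂ) 1, z ≠ 1 → ‖B z‖ ≤ K / ‖1 - z‖ ^ 2) →
    (∀ n, iteratedDeriv n B 0 = n.factorial * (b n : ℂ)) → (∀ n, c ≤ b n * ((n : ℝ) + 1) ^ 2) →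
    IsClosed C → Convex ℝ C → (∀ u : ℂ, ‖u‖ = 1 → u ≠ 1 → B u ∈ C) →
    DifferentiableOn ℂ F (ball 0 1) → F 0 = B 0 → (∀ z ∈ ball (0 : ℂ) 1, F z ∉ C) →
    ∀ n : ℕ, ‖iteratedDeriv n F 0‖ ≤ n.factorial * b n

/-- Phragmen-Lindelof for the real part. -/
def PLStmt : Prop :=
  ∀ (f : ℂ → ℂ) (K : ℝ), DiffContOnCl ℂ f {w | 0 < w.re} →
    (∀ w : ℂ, 0 < w.re → ‖f w‖ ≤ K * (1 + ‖w‖)) → (∀ x : ℝ, 0 < x → -K ≤ (f x).re) →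
    (∀ τ : ℝ, 0 ≤ (f (τ * I)).re) → ∀ w : ℂ, 0 < w.re → 0 ≤ (f w).re

/-- The integral `J w = ∫_0^1 s^(β-1) (2 - s + w s)^(β-1) ds`. -/
noncomputable def J (β : ℝ) (w : ℂ) : ℂ :=
  ∫ s in (0 : ℝ)..1, ((s : ℂ) ^ ((β - 1 : ℝ) : ℂ)) * (2 - s + w * s) ^ ((β - 1 : ℝ) : ℂ)

/-- `J` is analytic for `Re w > -1`, with the first-order equation. -/
def JodeStmt : Prop :=
  ∀ (β : ℝ), 1 < β → ∀ w : ℂ, -1 < w.re → AnalyticAt ℂ (J β) w ∧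
    (1 - w) * deriv (J β) w = β * J β w - (1 + w) ^ ((β - 1 : ℝ) : ℂ)

/-- asymptotics of `J` in the right half-plane -/
def JinfStmt : Prop :=
  ∀ (β : ℝ), 1 < β → Tendsto (fun w : ℂ => J β w / (1 + w) ^ ((β - 1 : ℝ) : ℂ))
    (cobounded ℂ ⊓ 𝓟 {w | 0 ≤ w.re}) (𝓝 (1 / (2 * β - 1)))

/-- symmetry and the value at `0` -/
def JsymStmt : Prop :=
  ∀ (β : ℝ), 1 < β → (∀ w : ℂ, 0 ≤ w.re → J β ((starRingEnd ℂ) w) = (starRingEnd ℂ) (J β w)) ∧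
    (∃ j : ℝ, 1 / β ≤ j ∧ J β 0 = j) ∧ (∀ x : ℝ, 0 ≤ x → 0 < (J β x).re)

end Pool.Agent.TH337.AC
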