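import Mathlib
import Pool.Agent.TH337.AC.Stm

/-! Coefficients of functions of positive real part (`cara`) and the hull lemma (`hull`). -/

set_option autoImplicit false

namespace Pool.Agent.TH337.AC
namespace HULL

open Complex MeasureTheory Filter Topology Metric Set

/-- a point of the unit circle -/
noncomputable def e (θ : ℝ) : ℂ := exp (θ * I)

/-- Lebesgue measure on one period -/
noncomputable def μ : Measure ℝ := volume.restrict (Ioc 0 (2 * Real.pi))

instance : IsFiniteMeasure μ := by unfold μ; infer_instance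

theorem e_norm (θ : ℝ) : ‖e θ‖ = 1 := norm_exp_ofReal_mul_I θ

theorem e_ne (θ : ℝ) : e θ ≠ 0 := exp_ne_zero _

theorem e_cont : Continuous e := by unfold e; fun_prop

theorem e_zpow_cont (k : ℤ) : Continuous fun θ => e θ ^ k :=
  e_cont.zpow₀ k fun θ => Or.inl (e_ne θ)

theorem e_zpow_norm (θ : ℝ) (k : ℤ) : ‖e θ ^ k‖ = 1 := by
  rw [norm_zpow, e_norm, one_zpow]

theorem int_cont {f : ℝ → ℂ} (hf : Continuous f) : Integrable f μ := by
  unfold μ
  exact (hf.integrableOn_Icc (a := 0) (b := 2 * Real.pi)).mono_set Ioc_subset_Icc_self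

theorem int_contR {f : ℝ → ℝ} (hf : Continuous f) : Integrable f μ := by
  unfold μ
  exact (hf.integrableOn_Icc (a := 0) (b := 2 * Real.pi)).mono_set Ioc_subset_Icc_self

theorem orth (k : ℤ) : ∫ θ, e θ ^ k ∂μ = if k = 0 then (2 * Real.pi : ℂ) else 0 := by
  unfold μ
  rw [← intervalIntegral.integral_of_le (by positivity)]
  split_ifs with h
  · subst h
    simp
  · have h1 : ∀ θ : ℝ, e θ ^ k = exp ((k * I) * θ) := by
      intro θ
      unfold e
      rw [← Complex.exp_int_mul]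
      congr 1
      ring
    simp_rw [h1]
    have h2 : (k * I : ℂ) ≠ 0 := by
      refine mul_ne_zero ?_ I_ne_zero
      exact_mod_cast h
    rw [integral_exp_mul_complex h2]
    have h3 : (k * I : ℂ) * ((2 * Real.pi : ℝ) : ℂ) = k * (2 * Real.pi * I) := by
      push_cast; ring
    rw [h3, Complex.exp_int_mul_two_pi_mul_I]
    simp

theorem term_norm (a : ℂ) {r : ℝ} (hr : 0 ≤ r) (θ : ℝ) (n : ℕ) (k : ℤ) :
    ‖a * (r * e θ) ^ n * e θ ^ k‖ = ‖a‖ * r ^ n := by
  rw [norm_mul, norm_mul, norm_pow, norm_mul, e_norm, e_zpow_norm, mul_one, mul_one, norm_real,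
    Real.norm_of_nonneg hr]

theorem series {a : ℕ → ℂ} {r : ℝ} (hr : 0 ≤ r) (ha : Summable fun n => ‖a n‖ * r ^ n) (k : ℤ) :
    HasSum (fun n : ℕ => a n * (r : ℂ) ^ n * (if (n : ℤ) + k = 0 then (2 * Real.pi : ℂ) else 0))
      (∫ θ, (∑' n, a n * (r * e θ) ^ n) * e θ ^ k ∂μ) := by
  have h := hasSum_integral_of_summable_integral_norm (μ := μ)
    (F := fun (n : ℕ) θ => a n * (r * e θ) ^ n * e θ ^ k) (fun n => int_cont (by
      have := e_cont; have := e_zpow_cont k; fun_prop)) (by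
      simp_rw [term_norm _ hr]
      simp only [integral_const, smul_eq_mul]
      exact ha.mul_left _)
  simp_rw [tsum_mul_right] at h
  have h2 : ∀ n : ℕ, ∫ θ, a n * (r * e θ) ^ n * e θ ^ k ∂μ =
      a n * (r : ℂ) ^ n * (if (n : ℤ) + k = 0 then (2 * Real.pi : ℂ) else 0) := by
    intro n
    have h1 : ∀ θ : ℝ, a n * (r * e θ) ^ n * e θ ^ k = a n * (r : ℂ) ^ n * e θ ^ ((n : ℤ) + k) := by
      intro θ
      rw [zpow_add₀ (e_ne θ), mul_pow, zpow_natCast]
      ring
    simp_rw [h1]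
    rw [integral_const_mul, orth]
  simpa only [h2] using h

theorem coef {a : ℕ → ℂ} {r : ℝ} (hr : 0 ≤ r) (ha : Summable fun n => ‖a n‖ * r ^ n) (n : ℕ) :
    ∫ θ, (∑' n, a n * (r * e θ) ^ n) * e θ ^ (-(n : ℤ)) ∂μ = 2 * Real.pi * (a n * (r : ℂ) ^ n) := by
  rw [← (series hr ha (-(n : ℤ))).tsum_eq, tsum_eq_single n]
  · simp; ring
  · intro m hm
    rw [if_neg, mul_zero]
    intro h
    exact hm (by omega)

theorem coef0 {a : ℕ → ℂ} {r : ℝ} (hr : 0 ≤ r) (ha : Summable fun n => ‖a n‖ * r ^ n) {n : ℕ}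
    (hn : n ≠ 0) : ∫ θ, (∑' n, a n * (r * e θ) ^ n) * e θ ^ (n : ℤ) ∂μ = 0 := by
  rw [← (series hr ha (n : ℤ)).tsum_eq]
  convert tsum_zero with m
  rw [if_neg, mul_zero]
  omega

theorem cont_series {a : ℕ → ℂ} {r : ℝ} (hr : 0 ≤ r) (ha : Summable fun n => ‖a n‖ * r ^ n) :
    Continuous fun θ : ℝ => ∑' n, a n * (r * e θ) ^ n := by
  refine continuous_tsum (fun n => ?_) ha fun n θ => ?_
  · have := e_cont; fun_prop
  · have := term_norm (a n) hr θ n 0
    simpa using this.le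

theorem conj_e (θ : ℝ) : (starRingEnd ℂ) (e θ) = (e θ)⁻¹ := by
  rw [Complex.inv_def, normSq_eq_norm_sq, e_norm]
  simp

/-- Fourier coefficients of the real part -/
theorem re_coef {a : ℕ → ℂ} {r : ℝ} (hr : 0 ≤ r) (ha : Summable fun n => ‖a n‖ * r ^ n)
    (h0 : a 0 = 1) (n : ℕ) :
    ∫ θ, ((2 * (∑' n, a n * (r * e θ) ^ n).re - 1 : ℝ) : ℂ) * e θ ^ (-(n : ℤ)) ∂μ =
      2 * Real.pi * (a n * (r : ℂ) ^ n) := by
  have hc := cont_series hr ha
  set p : ℝ → ℂ := fun θ => ∑' n, a n * (r * e θ) ^ n with hp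
  have h1 : ∀ θ, ((2 * (p θ).re - 1 : ℝ) : ℂ) * e θ ^ (-(n : ℤ)) =
      p θ * e θ ^ (-(n : ℤ)) + ((starRingEnd ℂ) (p θ * e θ ^ (n : ℤ)) - e θ ^ (-(n : ℤ))) := by
    intro θ
    have h2 : (starRingEnd ℂ) (e θ ^ (n : ℤ)) = e θ ^ (-(n : ℤ)) := by
      rw [map_zpow₀, conj_e, inv_zpow, zpow_neg]
    have h3 : ((2 * (p θ).re - 1 : ℝ) : ℂ) = p θ + (starRingEnd ℂ) (p θ) - 1 := by
      rw [Complex.add_conj]; push_cast; ring
    rw [map_mul, h2, h3]
    ring
  have i1 : Integrable (fun θ => p θ * e θ ^ (-(n : ℤ))) μ :=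
    int_cont (hc.mul (e_zpow_cont _))
  have i2 : Integrable (fun θ => (starRingEnd ℂ) (p θ * e θ ^ (n : ℤ))) μ :=
    int_cont (Complex.continuous_conj.comp (hc.mul (e_zpow_cont _)))
  have i3 : Integrable (fun θ => e θ ^ (-(n : ℤ))) μ := int_cont (e_zpow_cont _)
  change ∫ θ, ((2 * (p θ).re - 1 : ℝ) : ℂ) * e θ ^ (-(n : ℤ)) ∂μ = _
  have i4 : Integrable (fun θ => (starRingEnd ℂ) (p θ * e θ ^ (n : ℤ)) - e θ ^ (-(n : ℤ))) μ :=
    i2.sub i3
  simp_rw [h1]
  rw [integral_add i1 i4, integral_sub i2 i3, integral_conj, orth]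
  rw [coef hr ha n]
  rcases eq_or_ne n 0 with rfl | hn
  · have h4 := coef hr ha 0
    simp only [Nat.cast_zero, neg_zero, zpow_zero, mul_one, pow_zero, h0] at h4 ⊢
    rw [h4]
    simp [Complex.conj_ofReal]
    exact map_ofNat _ 2
  · rw [coef0 hr ha hn, if_neg (by omega)]
    simp

theorem rho_int {a : ℕ → ℂ} {r : ℝ} (hr : 0 ≤ r) (ha : Summable fun n => ‖a n‖ * r ^ n)
    (h0 : a 0 = 1) :
    ∫ θ, (2 * (∑' n, a n * (r * e θ) ^ n).re - 1) ∂μ = 2 * Real.pi := by
  have h := re_coef hr ha h0 0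
  simp only [Nat.cast_zero, neg_zero, zpow_zero, mul_one, pow_zero, h0] at h
  rw [integral_complex_ofReal] at h
  exact_mod_cast h

/-- Caratheodory's bound for the power series with real part larger than `1 / 2` -/
theorem caraS {a : ℕ → ℂ} (ha : ∀ r : ℝ, 0 ≤ r → r < 1 → Summable fun n => ‖a n‖ * r ^ n)
    (h0 : a 0 = 1) (hpos : ∀ z ∈ ball (0 : ℂ) 1, 1 / 2 < (∑' n, a n * z ^ n).re) (n : ℕ) :
    ‖a n‖ ≤ 1 := by
  have key : ∀ r : ℝ, 0 ≤ r → r < 1 → ‖a n‖ * r ^ n ≤ 1 := by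
    intro r hr hr1
    have h1 := re_coef hr (ha r hr hr1) h0 n
    have hc := cont_series hr (ha r hr hr1)
    have hb : ∀ θ : ℝ, 0 ≤ 2 * (∑' n, a n * (r * e θ) ^ n).re - 1 := by
      intro θ
      have := hpos (r * e θ) (by
        rw [mem_ball_zero_iff, norm_mul, e_norm, norm_real, Real.norm_of_nonneg hr]; linarith)
      linarith
    have h2 : ‖(2 * Real.pi * (a n * (r : ℂ) ^ n) : ℂ)‖ ≤ 2 * Real.pi := by
      rw [← h1, ← rho_int hr (ha r hr hr1) h0]
      refine (norm_integral_le_integral_norm _).trans (le_of_eq ?_)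
      refine integral_congr_ae (Eventually.of_forall fun θ => ?_)
      simp only
      rw [norm_mul, e_zpow_norm, mul_one, norm_real, Real.norm_of_nonneg (hb θ)]
    have h3 : ‖(2 * Real.pi * (a n * (r : ℂ) ^ n) : ℂ)‖ = 2 * Real.pi * (‖a n‖ * r ^ n) := by
      rw [norm_mul, norm_mul, norm_mul, norm_pow, norm_real, norm_real, Real.norm_of_nonneg hr,
        Real.norm_of_nonneg Real.pi_pos.le]
      simp
    rw [h3] at h2
    have := Real.pi_pos
    by_contra hcon
    push Not at hcon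
    nlinarith
  have ht : Tendsto (fun r : ℝ => ‖a n‖ * r ^ n) (𝓝[<] 1) (𝓝 (‖a n‖ * 1 ^ n)) :=
    (Continuous.tendsto (by fun_prop) _).mono_left nhdsWithin_le_nhds
  rw [one_pow, mul_one] at ht
  refine le_of_tendsto ht ?_
  have : ∀ᶠ r : ℝ in 𝓝[<] 1, 0 < r :=
    nhdsWithin_le_nhds (lt_mem_nhds one_pos)
  filter_upwards [this, self_mem_nhdsWithin] with r h1 h2
  exact key r h1.le h2

/-- Taylor series in the unit disc -/
theorem taylor {f : ℂ → ℂ} (hf : DifferentiableOn ℂ f (ball 0 1)) {z : ℂ} (hz : z ∈ ball (0 : ℂ) 1) :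
    HasSum (fun n : ℕ => iteratedDeriv n f 0 / n.factorial * z ^ n) (f z) := by
  have h := Complex.hasSum_taylorSeries_on_ball (r := 1) hf hz
  have e1 : (fun n : ℕ => iteratedDeriv n f 0 / n.factorial * z ^ n) =
      fun n : ℕ => (n.factorial : ℂ)⁻¹ • (z - 0) ^ n • iteratedDeriv n f 0 := by
    funext n
    simp only [sub_zero, smul_eq_mul]
    ring
  rw [e1]
  exact h

theorem taylor_summable {f : ℂ → ℂ} (hf : DifferentiableOn ℂ f (ball 0 1)) {r : ℝ} (hr : 0 ≤ r)
    (hr1 : r < 1) : Summable fun n : ℕ => ‖iteratedDeriv n f 0 / n.factorial‖ * r ^ n := by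
  have h := (taylor hf (z := (r : ℂ)) (by
    rw [mem_ball_zero_iff, norm_real, Real.norm_of_nonneg hr]; exact hr1)).summable.norm
  refine h.congr fun n => ?_
  rw [norm_mul, norm_pow, norm_real, Real.norm_of_nonneg hr]

theorem cara : CaraStmt := by
  intro p hp p0 hpos n hn
  -- the series `(1 + p) / 2`
  set a : ℕ → ℂ := fun n => iteratedDeriv n p 0 / n.factorial with ha
  have hfac : (0 : ℝ) < n.factorial := by exact_mod_cast n.factorial_pos
  set b : ℕ → ℂ := fun n => if n = 0 then 1 else a n / 2 with hb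
  have hbs : ∀ r : ℝ, 0 ≤ r → r < 1 → Summable fun n => ‖b n‖ * r ^ n := by
    intro r hr hr1
    refine Summable.of_nonneg_of_le (fun n => by positivity) (fun n => ?_)
      (taylor_summable hp hr hr1)
    refine mul_le_mul_of_nonneg_right ?_ (by positivity)
    rcases eq_or_ne n 0 with rfl | h
    · simp [hb, p0]
    · simp only [hb, if_neg h, ha]
      rw [norm_div _ (2 : ℂ)]
      simp only [RCLike.norm_ofNat]
      linarith [norm_nonneg (iteratedDeriv n p 0 / (n.factorial : ℂ))]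
  have hsum : ∀ z ∈ ball (0 : ℂ) 1, ∑' n, b n * z ^ n = (1 + p z) / 2 := by
    intro z hz
    have h1 := taylor hp hz
    have h2 : HasSum (fun n : ℕ => (if n = 0 then (1 : ℂ) / 2 else 0)) (1 / 2) :=
      hasSum_ite_eq 0 (1 / 2)
    have h3 := h2.add (h1.mul_left (1 / 2))
    rw [show (1 + p z) / 2 = 1 / 2 + 1 / 2 * p z by ring, ← h3.tsum_eq]
    refine tsum_congr fun n => ?_
    rcases eq_or_ne n 0 with rfl | h
    · simp [hb, p0]; norm_num
    · simp only [hb, if_neg h, ha]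
      ring
  have h := caraS hbs (by simp [hb]) (fun z hz => by
    rw [hsum z hz]
    have := hpos z hz
    have h5 : ((1 + p z) / 2).re = (1 + (p z).re) / 2 := by
      rw [show (1 + p z) / 2 = ((1 / 2 : ℝ) : ℂ) * (1 + p z) by push_cast; ring, re_ofReal_mul]
      simp; ring
    rw [h5]; linarith) n
  simp only [hb, if_neg hn, ha] at h
  have h6 : ‖(n.factorial : ℂ)‖ = n.factorial := by simp
  rw [norm_div, norm_div, RCLike.norm_ofNat, h6, div_div, div_le_one (by positivity)] at h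
  linarith

/-- differentiability of a power series -/
theorem diff_series {a : ℕ → ℂ} (ha : ∀ r : ℝ, 0 ≤ r → r < 1 → Summable fun n => ‖a n‖ * r ^ n) :
    DifferentiableOn ℂ (fun z => ∑' n, a n * z ^ n) (ball 0 1) := by
  intro z hz
  obtain ⟨s, hs1, hs2⟩ := exists_between (mem_ball_zero_iff.mp hz)
  have hs0 : 0 ≤ s := (norm_nonneg z).trans hs1.le
  have h := differentiableOn_tsum_of_summable_norm (F := fun (n : ℕ) (z : ℂ) => a n * z ^ n)
    (U := ball (0 : ℂ) s) (ha s hs0 hs2) (fun n => by fun_prop) isOpen_ball (fun n w hw => by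
    rw [norm_mul, norm_pow]
    exact mul_le_mul_of_nonneg_left (pow_le_pow_left₀ (norm_nonneg _)
      (mem_ball_zero_iff.mp hw).le _) (norm_nonneg _))
  exact (h.differentiableAt
    (isOpen_ball.mem_nhds (mem_ball_zero_iff.mpr hs1))).differentiableWithinAt

/-- quadratic vanishing at a minimum of the real part on a circle -/
theorem touch {N : ℂ → ℂ} (hN : DifferentiableOn ℂ N (ball 0 1)) {z₁ : ℂ}
    (hz1 : ‖z₁‖ < 1) (h1 : (N z₁).re = 1 / 2) (hmin : ∀ z, ‖z‖ ≤ ‖z₁‖ → 1 / 2 ≤ (N z).re) :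
    ∃ K₁ : ℝ, 0 ≤ K₁ ∧ ∀ u : ℂ, ‖u‖ = 1 → 2 * (N (z₁ * u)).re - 1 ≤ K₁ * ‖u - 1‖ ^ 2 := by
  have hmem : z₁ ∈ ball (0 : ℂ) 1 := mem_ball_zero_iff.mpr hz1
  have hnhds : ball (0 : ℂ) 1 ∈ 𝓝 z₁ := isOpen_ball.mem_nhds hmem
  have hd : DifferentiableOn ℂ (dslope (dslope N z₁) z₁) (ball 0 1) := by
    rw [differentiableOn_dslope hnhds, differentiableOn_dslope hnhds]
    exact hN
  obtain ⟨M, hM⟩ := (isCompact_closedBall (0 : ℂ) ‖z₁‖).exists_bound_of_continuousOn
    (hd.continuousOn.mono (closedBall_subset_ball hz1))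
  -- the derivative along the circle vanishes
  have e0 : e 0 = 1 := by simp [e]
  have he : HasDerivAt e I 0 := by
    have h2 : HasDerivAt (fun θ : ℝ => (θ : ℂ) * I) (1 * I) 0 :=
      (hasDerivAt_id (0 : ℝ)).ofReal_comp.mul_const I
    have h3 := h2.cexp
    simpa [e] using! h3
  have hc : HasDerivAt (fun θ : ℝ => z₁ * e θ) (z₁ * I) 0 := he.const_mul z₁
  have hNd : HasDerivAt N (deriv N z₁) (z₁ * e 0) := by
    rw [e0, mul_one]
    exact (hN.differentiableAt hnhds).hasDerivAt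
  have hcomp := HasDerivAt.scomp (0 : ℝ) hNd hc
  have hre := Complex.reCLM.hasFDerivAt.comp_hasDerivAt (0 : ℝ) hcomp
  have hloc : IsLocalMin (⇑reCLM ∘ (N ∘ fun θ : ℝ => z₁ * e θ)) 0 := by
    refine Eventually.of_forall fun θ => ?_
    simp only [Function.comp_apply, reCLM_apply, e0, mul_one, h1]
    refine hmin _ ?_
    rw [norm_mul, e_norm, mul_one]
  have hzero := hloc.hasDerivAt_eq_zero hre
  have him : (z₁ * deriv N z₁).im = 0 := by
    simp only [reCLM_apply, smul_eq_mul] at hzero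
    have h5 : (z₁ * I * deriv N z₁).re = -(z₁ * deriv N z₁).im := by
      rw [show z₁ * I * deriv N z₁ = (z₁ * deriv N z₁) * I by ring, mul_I_re]
    rw [h5] at hzero
    linarith
  refine ⟨|2 * M - (z₁ * deriv N z₁).re|, abs_nonneg _, fun u hu => ?_⟩
  have hzu : ‖z₁ * u‖ = ‖z₁‖ := by rw [norm_mul, hu, mul_one]
  have t1 := sub_smul_dslope N z₁ (z₁ * u)
  have t2 := sub_smul_dslope (dslope N z₁) z₁ (z₁ * u)
  rw [dslope_same] at t2
  simp only [smul_eq_mul] at t1 t2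
  set q := dslope (dslope N z₁) z₁ (z₁ * u) with hq
  have hqM : ‖q‖ ≤ M := hM _ (mem_closedBall_zero_iff.mpr hzu.le)
  have t3 : N (z₁ * u) = N z₁ + (z₁ * deriv N z₁) * (u - 1) + z₁ ^ 2 * (u - 1) ^ 2 * q := by
    have t4 : dslope N z₁ (z₁ * u) = deriv N z₁ + (z₁ * u - z₁) * q := by
      rw [t2]; ring
    rw [t4] at t1
    linear_combination -t1
  have hu2 : ‖u - 1‖ ^ 2 = 2 - 2 * u.re := by
    have h7 : ‖u‖ ^ 2 = 1 := by rw [hu]; norm_num
    rw [← normSq_eq_norm_sq, normSq_apply] at h7 ⊢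
    simp only [sub_re, one_re, sub_im, one_im, sub_zero]
    nlinarith
  have t5 : ((z₁ * deriv N z₁) * (u - 1)).re = -(z₁ * deriv N z₁).re * ‖u - 1‖ ^ 2 / 2 := by
    rw [mul_re, him, hu2]
    simp only [sub_re, one_re]
    ring
  have t6 : (z₁ ^ 2 * (u - 1) ^ 2 * q).re ≤ ‖u - 1‖ ^ 2 * M := by
    refine (re_le_norm _).trans ?_
    rw [norm_mul, norm_mul, norm_pow, norm_pow]
    have h8 : ‖z₁‖ ^ 2 ≤ 1 := by nlinarith [norm_nonneg z₁]
    have h9 : ‖z₁‖ ^ 2 * ‖u - 1‖ ^ 2 ≤ ‖u - 1‖ ^ 2 := by nlinarith [sq_nonneg ‖u - 1‖]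
    exact mul_le_mul h9 hqM (norm_nonneg _) (by positivity)
  rw [t3, add_re, add_re, h1, t5]
  have t7 := le_abs_self (2 * M - (z₁ * deriv N z₁).re)
  nlinarith [sq_nonneg ‖u - 1‖, mul_le_mul_of_nonneg_right t7 (sq_nonneg ‖u - 1‖)]

/-- a point of the segment `[0, w]` is not closer to `1` than half the distance of `w` -/
theorem half_dist {w : ℂ} (hw : ‖w‖ = 1) {t : ℝ} (ht0 : 0 ≤ t) (ht1 : t ≤ 1) :
    ‖1 - w‖ / 2 ≤ ‖1 - t * w‖ := by
  have h1 : ‖1 - w‖ ≤ ‖1 - t * w‖ + ‖(t : ℂ) * w - w‖ := by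
    have := norm_add_le (1 - t * w) ((t : ℂ) * w - w)
    rwa [show (1 - t * w) + ((t : ℂ) * w - w) = 1 - w by ring] at this
  have h2 : ‖(t : ℂ) * w - w‖ = 1 - t := by
    rw [show (t : ℂ) * w - w = ((t - 1 : ℝ) : ℂ) * w by push_cast; ring, norm_mul, hw, mul_one,
      norm_real, Real.norm_eq_abs, abs_of_nonpos (by linarith)]
    ring
  have h3 : 1 - t ≤ ‖1 - t * w‖ := by
    have := norm_sub_norm_le (1 : ℂ) (t * w)
    rw [norm_one, norm_mul, hw, mul_one, norm_real, Real.norm_of_nonneg ht0] at this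
    exact this
  linarith

/-- polynomial weights are harmless -/
theorem weight_summable {f : ℕ → ℂ} {b : ℕ → ℝ} {c : ℝ} (hc : 0 < c) (hb0 : ∀ n, 0 < b n)
    (hb : ∀ n, c ≤ b n * ((n : ℝ) + 1) ^ 2)
    (hf : ∀ r : ℝ, 0 ≤ r → r < 1 → Summable fun n => ‖f n‖ * r ^ n) {r : ℝ} (hr : 0 ≤ r)
    (hr1 : r < 1) : Summable fun n => ‖f n / (b n : ℂ)‖ * r ^ n := by
  obtain ⟨s, hs1, hs2⟩ := exists_between hr1
  have hs0 : 0 < s := hr.trans_lt hs1
  have hq0 : 0 ≤ r / s := div_nonneg hr hs0.le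
  have hq1 : r / s < 1 := (div_lt_one hs0).mpr hs1
  have hqn : ‖r / s‖ < 1 := by rwa [Real.norm_of_nonneg hq0]
  have hsum : Summable fun n : ℕ => ((n : ℝ) + 1) ^ 2 * (r / s) ^ n := by
    have h2 := summable_pow_mul_geometric_of_norm_lt_one 2 hqn
    have h1 := summable_pow_mul_geometric_of_norm_lt_one 1 hqn
    have h0 := summable_pow_mul_geometric_of_norm_lt_one 0 hqn
    refine ((h2.add (h1.mul_left 2)).add h0).congr fun n => ?_
    ring
  set D := ∑' n : ℕ, ((n : ℝ) + 1) ^ 2 * (r / s) ^ n with hD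
  have hle : ∀ n : ℕ, ((n : ℝ) + 1) ^ 2 * (r / s) ^ n ≤ D := fun n =>
    hsum.le_tsum n fun m _ => by positivity
  refine Summable.of_nonneg_of_le (fun n => by positivity) (fun n => ?_)
    ((hf s hs0.le hs2).mul_left (D / c))
  have e1 : ‖f n / (b n : ℂ)‖ = ‖f n‖ / b n := by
    rw [norm_div, norm_real, Real.norm_of_nonneg (hb0 n).le]
  have e2 : r ^ n = (r / s) ^ n * s ^ n := by
    rw [div_pow, div_mul_cancel₀ _ (pow_ne_zero _ hs0.ne')]
  have e3 : 1 / b n ≤ ((n : ℝ) + 1) ^ 2 / c := by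
    rw [div_le_div_iff₀ (hb0 n) hc]
    linarith [hb n]
  rw [e1, e2]
  calc ‖f n‖ / b n * ((r / s) ^ n * s ^ n) = (1 / b n) * (r / s) ^ n * (‖f n‖ * s ^ n) := by ring
    _ ≤ ((n : ℝ) + 1) ^ 2 / c * (r / s) ^ n * (‖f n‖ * s ^ n) := by
        refine mul_le_mul_of_nonneg_right (mul_le_mul_of_nonneg_right e3 (by positivity))
          (by positivity)
    _ = (((n : ℝ) + 1) ^ 2 * (r / s) ^ n) / c * (‖f n‖ * s ^ n) := by ring
    _ ≤ D / c * (‖f n‖ * s ^ n) := by
        refine mul_le_mul_of_nonneg_right (div_le_div_of_nonneg_right (hle n) hc.le)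
          (by positivity)

theorem main {B F : ℂ → ℂ} {C : Set ℂ} {K c : ℝ} {b : ℕ → ℝ} (hc : 0 < c)
    (hB : DifferentiableOn ℂ B (ball 0 1)) (hBc : ContinuousOn B (closedBall 0 1 \ {1}))
    (hBK : ∀ z ∈ closedBall (0 : ℂ) 1, z ≠ 1 → ‖B z‖ ≤ K / ‖1 - z‖ ^ 2)
    (hBb : ∀ n, iteratedDeriv n B 0 = n.factorial * (b n : ℂ))
    (hbc : ∀ n, c ≤ b n * ((n : ℝ) + 1) ^ 2) (hCc : IsClosed C) (hCv : Convex ℝ C)
    (hBC : ∀ u : ℂ, ‖u‖ = 1 → u ≠ 1 → B u ∈ C) (hF : DifferentiableOn ℂ F (ball 0 1))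
    (hF0 : F 0 = B 0) (hFC : ∀ z ∈ ball (0 : ℂ) 1, F z ∉ C) (n : ℕ) :
    ‖iteratedDeriv n F 0‖ ≤ n.factorial * b n := by
  have hb0 : ∀ n, 0 < b n := by
    intro n
    by_contra h
    push Not at h
    have := hbc n
    nlinarith [sq_nonneg ((n : ℝ) + 1), mul_nonneg (neg_nonneg.mpr h) (sq_nonneg ((n : ℝ) + 1))]
  have hbne : ∀ n, (b n : ℂ) ≠ 0 := fun n => by exact_mod_cast (hb0 n).ne'
  set f : ℕ → ℂ := fun n => iteratedDeriv n F 0 / n.factorial with hf
  set N : ℕ → ℂ := fun n => f n / (b n : ℂ) with hNdef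
  have hNs : ∀ r : ℝ, 0 ≤ r → r < 1 → Summable fun n => ‖N n‖ * r ^ n := fun r hr hr1 =>
    weight_summable hc hb0 hbc (fun r hr hr1 => taylor_summable hF hr hr1) hr hr1
  have hB0 : B 0 = b 0 := by simpa using hBb 0
  have hN0 : N 0 = 1 := by
    have : f 0 = b 0 := by simp [hf, hF0, hB0]
    simp only [hNdef, this]
    exact div_self (hbne 0)
  have hNd := diff_series hNs
  set G : ℂ → ℂ := fun z => ∑' n, N n * z ^ n with hG
  have hG0 : G 0 = 1 := by
    simp only [hG]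
    rw [tsum_eq_single 0]
    · simp [hN0]
    · intro m hm; simp [hm]
  have claim : ∀ z ∈ ball (0 : ℂ) 1, 1 / 2 < (G z).re := by
    by_contra hcon
    push Not at hcon
    obtain ⟨zs, hzs, hzs2⟩ := hcon
    have hzs1 : ‖zs‖ < 1 := mem_ball_zero_iff.mp hzs
    have hGc : ContinuousOn (fun z => (G z).re) (ball 0 1) :=
      Complex.continuous_re.comp_continuousOn hNd.continuousOn
    have hcl : IsClosed (closedBall (0 : ℂ) ‖zs‖ ∩ (fun z => (G z).re) ⁻¹' Iic (1 / 2)) :=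
      (hGc.mono (closedBall_subset_ball hzs1)).preimage_isClosed_of_isClosed isClosed_closedBall
        isClosed_Iic
    have hcomp := (isCompact_closedBall (0 : ℂ) ‖zs‖).of_isClosed_subset hcl inter_subset_left
    obtain ⟨z₁, hz₁, hmin₁⟩ := hcomp.exists_isMinOn ⟨zs, by simp, hzs2⟩
      (continuous_norm.continuousOn)
    have hz₁n : ‖z₁‖ ≤ ‖zs‖ := mem_closedBall_zero_iff.mp hz₁.1
    have hz₁1 : ‖z₁‖ < 1 := hz₁n.trans_lt hzs1
    have hz₁0 : z₁ ≠ 0 := by
      rintro rfl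
      have := hz₁.2
      simp only [mem_preimage, mem_Iic, hG0, one_re] at this
      norm_num at this
    have hlt : ∀ z, ‖z‖ < ‖z₁‖ → 1 / 2 < (G z).re := by
      intro z hz
      by_contra h
      push Not at h
      have : ‖z₁‖ ≤ ‖z‖ := hmin₁ (a := z) ⟨mem_closedBall_zero_iff.mpr (hz.le.trans hz₁n), h⟩
      linarith
    have hle : ∀ z, ‖z‖ ≤ ‖z₁‖ → 1 / 2 ≤ (G z).re := by
      intro z hz
      have hcb : closure (ball (0 : ℂ) ‖z₁‖) = closedBall 0 ‖z₁‖ :=
        closure_ball 0 (norm_ne_zero_iff.mpr hz₁0)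
      refine le_on_closure (s := ball (0 : ℂ) ‖z₁‖) (f := fun _ => (1 / 2 : ℝ))
        (g := fun z => (G z).re) (fun w hw => (hlt w (mem_ball_zero_iff.mp hw)).le)
        continuousOn_const ?_ ?_
      · rw [hcb]; exact hGc.mono (closedBall_subset_ball hz₁1)
      · rw [hcb]; exact mem_closedBall_zero_iff.mpr hz
    have heq : (G z₁).re = 1 / 2 := le_antisymm hz₁.2 (hle z₁ le_rfl)
    obtain ⟨K₁, hK₁, htouch⟩ := touch hNd hz₁1 heq hle
    -- the coefficients of `u ↦ G (z₁ u)`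
    set a : ℕ → ℂ := fun n => N n * z₁ ^ n with ha
    have has : Summable fun n => ‖a n‖ * (1 : ℝ) ^ n := by
      refine (hNs ‖z₁‖ (norm_nonneg _) hz₁1).congr fun n => ?_
      simp only [ha, norm_mul, norm_pow, one_pow, mul_one]
    have haG : ∀ θ : ℝ, ∑' n, a n * (((1 : ℝ) : ℂ) * e θ) ^ n = G (z₁ * e θ) := by
      intro θ
      simp only [hG, ha]
      refine tsum_congr fun n => ?_
      rw [ofReal_one, one_mul, mul_pow, mul_assoc]
    have ha0 : a 0 = 1 := by simp [ha, hN0]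
    set ρ : ℝ → ℝ := fun θ => 2 * (G (z₁ * e θ)).re - 1 with hρ
    have hρc : Continuous ρ := by
      have h := cont_series zero_le_one has
      simp_rw [haG] at h
      exact (continuous_const.mul (Complex.continuous_re.comp h)).sub continuous_const
    have hρ0 : ∀ θ, 0 ≤ ρ θ := by
      intro θ
      have := hle (z₁ * e θ) (by rw [norm_mul, e_norm, mul_one])
      simp only [hρ]; linarith
    have hρ1 : ∀ θ, ρ θ ≤ K₁ * ‖e θ - 1‖ ^ 2 := fun θ => htouch (e θ) (e_norm θ)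
    have hρi : ∫ θ, ρ θ ∂μ = 2 * Real.pi := by
      have h := rho_int zero_le_one has ha0
      simp_rw [haG] at h
      exact h
    have hρn : ∀ n : ℕ, ∫ θ, (ρ θ : ℂ) * e θ ^ (-(n : ℤ)) ∂μ = 2 * Real.pi * a n := by
      intro n
      have h := re_coef zero_le_one has ha0 n
      simp_rw [haG] at h
      rw [ofReal_one, one_pow, mul_one] at h
      exact h
    -- the integral formula
    have hint : ∀ t : ℝ, 0 ≤ t → t < 1 →
        ∫ θ, B (t * (e θ)⁻¹) * (ρ θ : ℂ) ∂μ = 2 * Real.pi * F (t * z₁) := by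
      intro t ht0 ht1
      have hbs : Summable fun n => ‖(b n : ℂ)‖ * t ^ n := by
        refine (taylor_summable hB ht0 ht1).congr fun n => ?_
        rw [hBb, mul_div_cancel_left₀]
        exact_mod_cast n.factorial_ne_zero
      have hcρ : Continuous fun θ => (ρ θ : ℂ) := Complex.continuous_ofReal.comp hρc
      have h := hasSum_integral_of_summable_integral_norm (μ := μ)
        (F := fun (n : ℕ) θ => (b n * (t : ℂ) ^ n) * ((ρ θ : ℂ) * e θ ^ (-(n : ℤ))))
        (fun n => int_cont (continuous_const.mul (hcρ.mul (e_zpow_cont _)))) (by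
          have h1 : ∀ (n : ℕ) (θ : ℝ), ‖(b n * (t : ℂ) ^ n) * ((ρ θ : ℂ) * e θ ^ (-(n : ℤ)))‖ =
              ‖(b n : ℂ)‖ * t ^ n * ρ θ := by
            intro n θ
            rw [norm_mul, norm_mul, norm_mul, e_zpow_norm, norm_pow, mul_one, norm_real t,
              norm_real (ρ θ), Real.norm_of_nonneg ht0, Real.norm_of_nonneg (hρ0 θ)]
          simp_rw [h1, integral_const_mul]
          exact hbs.mul_right _)
      have h2 : ∀ θ : ℝ, ∑' n : ℕ, (b n * (t : ℂ) ^ n) * ((ρ θ : ℂ) * e θ ^ (-(n : ℤ))) =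
          B (t * (e θ)⁻¹) * (ρ θ : ℂ) := by
        intro θ
        have hw : (t : ℂ) * (e θ)⁻¹ ∈ ball (0 : ℂ) 1 := by
          rw [mem_ball_zero_iff, norm_mul, norm_inv, e_norm, norm_real,
            Real.norm_of_nonneg ht0]
          linarith
        have h3 := (taylor hB hw).mul_right (ρ θ : ℂ)
        rw [← h3.tsum_eq]
        refine tsum_congr fun n => ?_
        rw [hBb, mul_div_cancel_left₀, mul_pow, zpow_neg, zpow_natCast, inv_pow]
        · ring
        · exact_mod_cast n.factorial_ne_zero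
      simp_rw [h2, integral_const_mul, hρn] at h
      have hw : (t : ℂ) * z₁ ∈ ball (0 : ℂ) 1 := by
        rw [mem_ball_zero_iff, norm_mul, norm_real, Real.norm_of_nonneg ht0]
        nlinarith [norm_nonneg z₁]
      have h4 := (taylor hF hw).mul_left (2 * Real.pi : ℂ)
      refine h.unique ?_
      have h5 : (fun n : ℕ => (b n : ℂ) * (t : ℂ) ^ n * (2 * Real.pi * a n)) =
          fun n : ℕ => (2 * Real.pi : ℂ) * (iteratedDeriv n F 0 / n.factorial *
            ((t : ℂ) * z₁) ^ n) := by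
        funext n
        simp only [ha, hNdef, hf]
        have := hbne n
        rw [mul_pow]
        field_simp
      rw [h5]
      exact h4
    -- the limit `t → 1`
    set t : ℕ → ℝ := fun k => 1 - 1 / ((k : ℝ) + 1) with ht
    have ht0 : ∀ k, 0 ≤ t k := by
      intro k
      have h1 : 1 / ((k : ℝ) + 1) ≤ 1 := by
        rw [div_le_one (by positivity)]
        linarith [(Nat.cast_nonneg k : (0 : ℝ) ≤ k)]
      simp only [ht]; linarith
    have ht1 : ∀ k, t k < 1 := by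
      intro k
      have h1 : 0 < 1 / ((k : ℝ) + 1) := by positivity
      simp only [ht]; linarith
    have htt : Tendsto t atTop (𝓝 1) := by
      have := (tendsto_one_div_add_atTop_nhds_zero_nat (𝕜 := ℝ)).const_sub 1
      rw [sub_zero] at this
      exact this
    have hK : 0 ≤ K := by
      have h1 := hBK 0 (by simp) zero_ne_one
      simp only [sub_zero, norm_one, one_pow, div_one] at h1
      exact (norm_nonneg _).trans h1
    have hinv : ∀ θ, ‖(e θ)⁻¹‖ = 1 := fun θ => by rw [norm_inv, e_norm, inv_one]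
    have hdist : ∀ θ, ‖1 - (e θ)⁻¹‖ = ‖e θ - 1‖ := by
      intro θ
      have h1 : 1 - (e θ)⁻¹ = (e θ - 1) * (e θ)⁻¹ := by
        rw [sub_mul, mul_inv_cancel₀ (e_ne θ), one_mul]
      rw [h1, norm_mul, hinv, mul_one]
    have hρz : ∀ θ, e θ = 1 → ρ θ = 0 := by
      intro θ h
      refine le_antisymm ?_ (hρ0 θ)
      have := hρ1 θ
      rw [h] at this
      simpa using this
    have hmem : ∀ θ k, (t k : ℂ) * (e θ)⁻¹ ∈ ball (0 : ℂ) 1 := by
      intro θ k
      rw [mem_ball_zero_iff, norm_mul, hinv, mul_one, norm_real, Real.norm_of_nonneg (ht0 k)]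
      exact ht1 k
    have hbd : ∀ θ k, ‖B (t k * (e θ)⁻¹) * (ρ θ : ℂ)‖ ≤ 4 * K * K₁ := by
      intro θ k
      by_cases h : e θ = 1
      · rw [hρz θ h]
        simp only [ofReal_zero, mul_zero, norm_zero]
        positivity
      · have hd : 0 < ‖e θ - 1‖ := norm_pos_iff.mpr (sub_ne_zero.mpr h)
        have h1 : ‖e θ - 1‖ / 2 ≤ ‖1 - t k * (e θ)⁻¹‖ := by
          rw [← hdist]
          exact half_dist (hinv θ) (ht0 k) (ht1 k).le
        have h2 := hBK _ (ball_subset_closedBall (hmem θ k)) (by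
          intro h0
          have h3 := mem_ball_zero_iff.mp (hmem θ k)
          rw [h0, norm_one] at h3
          exact lt_irrefl _ h3)
        have h4 : K / ‖1 - t k * (e θ)⁻¹‖ ^ 2 ≤ 4 * K / ‖e θ - 1‖ ^ 2 := by
          rw [show 4 * K / ‖e θ - 1‖ ^ 2 = K / (‖e θ - 1‖ / 2) ^ 2 by
            rw [div_pow, div_div_eq_mul_div]; ring]
          exact div_le_div_of_nonneg_left hK (by positivity)
            (pow_le_pow_left₀ (by positivity) h1 2)
        rw [norm_mul, norm_real, Real.norm_of_nonneg (hρ0 θ)]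
        calc ‖B (t k * (e θ)⁻¹)‖ * ρ θ ≤ (4 * K / ‖e θ - 1‖ ^ 2) * (K₁ * ‖e θ - 1‖ ^ 2) :=
              mul_le_mul (h2.trans h4) (hρ1 θ) (hρ0 θ) (by positivity)
          _ = 4 * K * K₁ := by field_simp
    have hcρ : Continuous fun θ => (ρ θ : ℂ) := Complex.continuous_ofReal.comp hρc
    have hms : ∀ k, AEStronglyMeasurable (fun θ => B (t k * (e θ)⁻¹) * (ρ θ : ℂ)) μ := by
      intro k
      refine Continuous.aestronglyMeasurable ?_
      refine Continuous.mul ?_ hcρ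
      exact hB.continuousOn.comp_continuous (continuous_const.mul (e_cont.inv₀ e_ne))
        fun θ => hmem θ k
    have hpt : ∀ θ, Tendsto (fun k => B (t k * (e θ)⁻¹) * (ρ θ : ℂ)) atTop
        (𝓝 (B ((e θ)⁻¹) * (ρ θ : ℂ))) := by
      intro θ
      by_cases h : e θ = 1
      · rw [hρz θ h]
        simp
      · refine Tendsto.mul_const _ ?_
        have hne : (e θ)⁻¹ ≠ 1 := by rwa [ne_eq, inv_eq_one]
        have hcw := hBc (e θ)⁻¹ ⟨mem_closedBall_zero_iff.mpr (hinv θ).le, hne⟩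
        refine hcw.tendsto.comp (tendsto_nhdsWithin_iff.mpr ⟨?_, Eventually.of_forall fun k => ?_⟩)
        · have h1 : Tendsto (fun k => ((t k : ℝ) : ℂ) * (e θ)⁻¹) atTop
              (𝓝 (((1 : ℝ) : ℂ) * (e θ)⁻¹)) :=
            ((Complex.continuous_ofReal.tendsto 1).comp htt).mul_const _
          simpa using h1
        · refine ⟨ball_subset_closedBall (hmem θ k), ?_⟩
          intro h0
          have h3 := mem_ball_zero_iff.mp (hmem θ k)
          rw [mem_singleton_iff.mp h0, norm_one] at h3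
          exact lt_irrefl _ h3
    have hlim := tendsto_integral_of_dominated_convergence (μ := μ)
      (F := fun k θ => B (t k * (e θ)⁻¹) * (ρ θ : ℂ)) (f := fun θ => B ((e θ)⁻¹) * (ρ θ : ℂ))
      (fun _ => 4 * K * K₁) hms (integrable_const _)
      (fun k => Eventually.of_forall fun θ => hbd θ k) (Eventually.of_forall hpt)
    have hlim2 : Tendsto (fun k => ∫ θ, B (t k * (e θ)⁻¹) * (ρ θ : ℂ) ∂μ) atTop
        (𝓝 (2 * Real.pi * F z₁)) := by
      simp_rw [fun k => hint (t k) (ht0 k) (ht1 k)]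
      refine Tendsto.const_mul _ ?_
      have hFc : ContinuousAt F z₁ := (hF.differentiableAt
        (isOpen_ball.mem_nhds (mem_ball_zero_iff.mpr hz₁1))).continuousAt
      refine hFc.tendsto.comp ?_
      have h1 : Tendsto (fun k => ((t k : ℝ) : ℂ) * z₁) atTop (𝓝 (((1 : ℝ) : ℂ) * z₁)) :=
        ((Complex.continuous_ofReal.tendsto 1).comp htt).mul_const _
      simpa using h1
    have hval := tendsto_nhds_unique hlim hlim2
    have hG1 : Integrable (fun θ => B ((e θ)⁻¹) * (ρ θ : ℂ)) μ := by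
      refine Integrable.of_bound (C := 4 * K * K₁)
        (aestronglyMeasurable_of_tendsto_ae atTop hms (Eventually.of_forall hpt)) ?_
      refine Eventually.of_forall fun θ => ?_
      exact le_of_tendsto (hpt θ).norm (Eventually.of_forall fun k => hbd θ k)
    -- separation
    obtain ⟨φ, v, hφ1, hφ2⟩ := geometric_hahn_banach_point_closed hCv hCc
      (hFC z₁ (mem_ball_zero_iff.mpr hz₁1))
    have hsep : ∫ θ, v * ρ θ ∂μ ≤ ∫ θ, φ (B ((e θ)⁻¹) * (ρ θ : ℂ)) ∂μ := by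
      refine integral_mono (int_contR (continuous_const.mul hρc)) (φ.integrable_comp hG1) ?_
      intro θ
      simp only
      have h1 : φ (B ((e θ)⁻¹) * (ρ θ : ℂ)) = ρ θ * φ (B ((e θ)⁻¹)) := by
        rw [show B ((e θ)⁻¹) * (ρ θ : ℂ) = (ρ θ) • B ((e θ)⁻¹) by
          rw [Complex.real_smul]; ring, map_smul, smul_eq_mul]
      rw [h1]
      by_cases h : e θ = 1
      · rw [hρz θ h]; simp
      · have h2 := hφ2 _ (hBC ((e θ)⁻¹) (hinv θ) (by rwa [ne_eq, inv_eq_one]))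
        nlinarith [hρ0 θ]
    rw [integral_const_mul, hρi, ContinuousLinearMap.integral_comp_comm φ hG1, hval] at hsep
    have h1 : φ (2 * Real.pi * F z₁) = 2 * Real.pi * φ (F z₁) := by
      rw [show (2 * Real.pi * F z₁ : ℂ) = (2 * Real.pi) • F z₁ by
        rw [Complex.real_smul]; push_cast; ring, map_smul, smul_eq_mul]
    rw [h1] at hsep
    nlinarith [Real.pi_pos]
  have h := caraS hNs hN0 claim n
  simp only [hNdef, hf] at h
  rw [norm_div, norm_div, norm_real, Real.norm_of_nonneg (hb0 n).le, div_le_one (hb0 n),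
    Complex.norm_natCast, div_le_iff₀ (by exact_mod_cast n.factorial_pos)] at h
  linarith

end HULL

/-- Caratheodory's coefficient bound -/
theorem cara : CaraStmt := HULL.cara

/-- the hull lemma -/
theorem hull : HullStmt := by
  intro B F C K c b hc hB hBc hBK hBb hbc hCc hCv hBC hF hF0 hFC n
  exact HULL.main hc hB hBc hBK hBb hbc hCc hCv hBC hF hF0 hFC n

end Pool.Agent.TH337.AC
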