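import Mathlib
import Pool.Agent.TH337.AC.Stm

/-! The integral `J β w = ∫_0^1 s^(β-1) (2 - s + w s)^(β-1) ds`: analyticity and first-order
equation, asymptotics in the right half-plane, symmetry and positivity. -/

set_option autoImplicit false

namespace Pool.Agent.TH337.AC

open Complex Filter Topology Bornology Metric Set MeasureTheory

namespace J_aux

/-- the base of the second power -/
noncomputable def bs (w : ℂ) (s : ℝ) : ℂ := 2 - s + w * s

lemma bs_re (w : ℂ) (s : ℝ) : (bs w s).re = 2 - s + w.re * s := by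
  simp [bs]

lemma bs_re_pos {w : ℂ} {s : ℝ} (hw : -1 < w.re) (h0 : 0 ≤ s) (h1 : s ≤ 1) :
    0 < (bs w s).re := by
  rw [bs_re]
  rcases eq_or_lt_of_le h0 with h | h
  · subst h; norm_num
  · nlinarith

lemma bs_slit {w : ℂ} {s : ℝ} (hw : -1 < w.re) (h0 : 0 ≤ s) (h1 : s ≤ 1) :
    bs w s ∈ slitPlane := Or.inl (bs_re_pos hw h0 h1)

/-- the integrand -/
noncomputable def F (β : ℝ) (w : ℂ) (s : ℝ) : ℂ :=
  ((s : ℂ) ^ ((β - 1 : ℝ) : ℂ)) * (bs w s) ^ ((β - 1 : ℝ) : ℂ)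

/-- the derivative of the integrand in `w` -/
noncomputable def F' (β : ℝ) (w : ℂ) (s : ℝ) : ℂ :=
  ((s : ℂ) ^ ((β - 1 : ℝ) : ℂ)) *
    (((β - 1 : ℝ) : ℂ) * (bs w s) ^ (((β - 1 : ℝ) : ℂ) - 1) * s)

lemma J_eq (β : ℝ) (w : ℂ) : J β w = ∫ s in (0 : ℝ)..1, F β w s := rfl

lemma cont_s {β : ℝ} (hβ : 1 < β) : Continuous fun s : ℝ => (s : ℂ) ^ ((β - 1 : ℝ) : ℂ) := by
  apply Complex.continuous_ofReal_cpow_const
  rw [ofReal_re]; linarith

lemma cont_bs2 : Continuous fun p : ℂ × ℝ => bs p.1 p.2 := by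
  unfold bs
  fun_prop

lemma cont_pow2 (c : ℂ) {A : Set (ℂ × ℝ)} (hA : ∀ p ∈ A, bs p.1 p.2 ∈ slitPlane) :
    ContinuousOn (fun p : ℂ × ℝ => (bs p.1 p.2) ^ c) A := by
  intro p hp
  have h := (continuousAt_cpow_const (a := bs p.1 p.2) (b := c) (hA p hp))
  exact (ContinuousAt.comp (f := fun p : ℂ × ℝ => bs p.1 p.2) h
    cont_bs2.continuousAt).continuousWithinAt

lemma contOn_F (β : ℝ) (hβ : 1 < β) {w : ℂ} (hw : -1 < w.re) :
    ContinuousOn (F β w) (Icc 0 1) := by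
  have h := cont_pow2 ((β - 1 : ℝ) : ℂ) (A := (fun s : ℝ => (w, s)) '' Icc 0 1) (by
    rintro _ ⟨s, hs, rfl⟩
    exact bs_slit hw hs.1 hs.2)
  have h2 : ContinuousOn (fun s : ℝ => (bs w s) ^ ((β - 1 : ℝ) : ℂ)) (Icc 0 1) :=
    h.comp (f := fun s : ℝ => (w, s)) (by fun_prop) (mapsTo_image _ _)
  exact (cont_s hβ).continuousOn.mul h2

lemma contOn_F' (β : ℝ) (hβ : 1 < β) {w : ℂ} (hw : -1 < w.re) :
    ContinuousOn (F' β w) (Icc 0 1) := by
  have h := cont_pow2 (((β - 1 : ℝ) : ℂ) - 1) (A := (fun s : ℝ => (w, s)) '' Icc 0 1) (by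
    rintro _ ⟨s, hs, rfl⟩
    exact bs_slit hw hs.1 hs.2)
  have h2 : ContinuousOn (fun s : ℝ => (bs w s) ^ (((β - 1 : ℝ) : ℂ) - 1)) (Icc 0 1) :=
    h.comp (f := fun s : ℝ => (w, s)) (by fun_prop) (mapsTo_image _ _)
  refine (cont_s hβ).continuousOn.mul ?_
  exact (continuousOn_const.mul h2).mul (by fun_prop)

lemma intble_of_contOn {f : ℝ → ℂ} (h : ContinuousOn f (Icc 0 1)) :
    IntervalIntegrable f volume 0 1 := by
  apply ContinuousOn.intervalIntegrable
  rwa [uIcc_of_le zero_le_one]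

lemma hasDerivAt_F (β : ℝ) {w : ℂ} (hw : -1 < w.re) {s : ℝ} (h0 : 0 ≤ s) (h1 : s ≤ 1) :
    HasDerivAt (fun w => F β w s) (F' β w s) w := by
  have hb : HasDerivAt (fun w : ℂ => bs w s) (s : ℂ) w := by
    have := ((hasDerivAt_id w).mul_const (s : ℂ)).const_add (2 - (s : ℂ))
    simpa [bs] using this
  exact (hb.cpow_const (bs_slit hw h0 h1)).const_mul _

/-- derivative of `J` -/
lemma hasDerivAt_J (β : ℝ) (hβ : 1 < β) {w : ℂ} (hw : -1 < w.re) :
    HasDerivAt (J β) (∫ s in (0 : ℝ)..1, F' β w s) w := by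
  set ε : ℝ := (1 + w.re) / 2 with hε
  have hε0 : 0 < ε := by rw [hε]; linarith
  have hball : ∀ x ∈ closedBall w ε, -1 < x.re := by
    intro x hx
    rw [mem_closedBall, dist_eq_norm] at hx
    have h1 : |(x - w).re| ≤ ‖x - w‖ := Complex.abs_re_le_norm _
    have h2 := (abs_le.1 (h1.trans hx)).1
    rw [sub_re] at h2
    rw [hε] at h2
    linarith
  -- uniform bound of F' on closedBall × [0,1]
  obtain ⟨C, hC⟩ : ∃ C : ℝ, ∀ p ∈ closedBall w ε ×ˢ Icc (0 : ℝ) 1, ‖F' β p.1 p.2‖ ≤ C := by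
    apply IsCompact.exists_bound_of_continuousOn
    · exact (isCompact_closedBall w ε).prod isCompact_Icc
    · have h := cont_pow2 (((β - 1 : ℝ) : ℂ) - 1) (A := closedBall w ε ×ˢ Icc (0 : ℝ) 1) (by
        rintro ⟨x, s⟩ ⟨hx, hs⟩
        exact bs_slit (hball x hx) hs.1 hs.2)
      refine ((cont_s hβ).comp continuous_snd).continuousOn.mul ?_
      exact (continuousOn_const.mul h).mul (by fun_prop)
  have key := intervalIntegral.hasDerivAt_integral_of_dominated_loc_of_deriv_le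
    (μ := volume) (𝕜 := ℂ) (a := (0 : ℝ)) (b := 1) (F := F β) (F' := F' β) (x₀ := w)
    (s := ball w ε) (bound := fun _ => C) (ball_mem_nhds w hε0)
    (by
      filter_upwards [ball_mem_nhds w hε0] with x hx
      exact (intble_of_contOn (contOn_F β hβ (hball x (ball_subset_closedBall hx)))).def'.aestronglyMeasurable)
    (intble_of_contOn (contOn_F β hβ hw))
    ((intble_of_contOn (contOn_F' β hβ hw)).def'.aestronglyMeasurable)
    (by
      refine Eventually.of_forall fun s hs x hx => ?_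
      rw [uIoc_of_le zero_le_one] at hs
      exact hC (x, s) ⟨ball_subset_closedBall hx, hs.1.le, hs.2⟩)
    intervalIntegrable_const
    (by
      refine Eventually.of_forall fun s hs x hx => ?_
      rw [uIoc_of_le zero_le_one] at hs
      exact hasDerivAt_F β (hball x (ball_subset_closedBall hx)) hs.1.le hs.2)
  exact key.2

/-- integration by parts -/
lemma parts (β : ℝ) (hβ : 1 < β) {w : ℂ} (hw : -1 < w.re) :
    (1 + w) ^ ((β - 1 : ℝ) : ℂ) =
      β * (∫ s in (0 : ℝ)..1, F β w s) + (w - 1) * ∫ s in (0 : ℝ)..1, F' β w s := by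
  have hder : ∀ s ∈ Ioo (0 : ℝ) 1, HasDerivAt
      (fun s : ℝ => ((s : ℂ) ^ (β : ℂ)) * (bs w s) ^ ((β - 1 : ℝ) : ℂ))
      (β * F β w s + (w - 1) * F' β w s) s := by
    intro s hs
    have hs0 : ((s : ℝ) : ℂ) ∈ slitPlane := Or.inl (by simpa using hs.1)
    have e1 : HasDerivAt (fun z : ℂ => z ^ (β : ℂ)) ((β : ℂ) * (s : ℂ) ^ ((β : ℂ) - 1)) (s : ℂ) := by
      have := (hasDerivAt_id (s : ℂ)).cpow_const (c := (β : ℂ)) hs0
      simpa using this
    have e2 : HasDerivAt (fun z : ℂ => (2 - z + w * z)) (w - 1) (s : ℂ) := by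
      have h1 := ((hasDerivAt_id (s : ℂ)).const_sub 2)
      have h2 := ((hasDerivAt_id (s : ℂ)).const_mul w)
      have h3 := h1.add h2
      have e : (-1 + w * 1 : ℂ) = w - 1 := by ring
      rw [e] at h3
      exact h3
    have hslit : (2 - (s : ℂ) + w * (s : ℂ)) ∈ slitPlane := bs_slit hw hs.1.le hs.2.le
    have e3 := e2.cpow_const (c := ((β - 1 : ℝ) : ℂ)) hslit
    have e4 := (e1.mul e3).comp_ofReal
    refine e4.congr_deriv ?_
    have hpow : (s : ℂ) ^ (β : ℂ) = (s : ℂ) ^ ((β - 1 : ℝ) : ℂ) * s := by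
      have hne : (s : ℂ) ≠ 0 := by exact_mod_cast hs.1.ne'
      have : (β : ℂ) = ((β - 1 : ℝ) : ℂ) + 1 := by push_cast; ring
      rw [this, cpow_add _ _ hne, cpow_one]
    have hpow2 : (s : ℂ) ^ ((β : ℂ) - 1) = (s : ℂ) ^ ((β - 1 : ℝ) : ℂ) := by
      push_cast; rfl
    rw [hpow2, hpow]
    simp only [F, F', bs]
    ring
  have hcont : ContinuousOn (fun s : ℝ => ((s : ℂ) ^ (β : ℂ)) * (bs w s) ^ ((β - 1 : ℝ) : ℂ))
      (Icc 0 1) := by
    have h := cont_pow2 ((β - 1 : ℝ) : ℂ) (A := (fun s : ℝ => (w, s)) '' Icc 0 1) (by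
      rintro _ ⟨s, hs, rfl⟩
      exact bs_slit hw hs.1 hs.2)
    have h2 : ContinuousOn (fun s : ℝ => (bs w s) ^ ((β - 1 : ℝ) : ℂ)) (Icc 0 1) :=
      h.comp (f := fun s : ℝ => (w, s)) (by fun_prop) (mapsTo_image _ _)
    have h3 : Continuous fun s : ℝ => (s : ℂ) ^ (β : ℂ) := by
      apply Complex.continuous_ofReal_cpow_const
      rw [ofReal_re]; linarith
    exact h3.continuousOn.mul h2
  have i1 := intble_of_contOn (contOn_F β hβ hw)
  have i2 := intble_of_contOn (contOn_F' β hβ hw)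
  have ftc := intervalIntegral.integral_eq_sub_of_hasDerivAt_of_le zero_le_one hcont hder
    ((i1.const_mul _).add (i2.const_mul _))
  rw [intervalIntegral.integral_add (i1.const_mul _) (i2.const_mul _),
    intervalIntegral.integral_const_mul, intervalIntegral.integral_const_mul] at ftc
  rw [ftc]
  have hb0 : (β : ℂ) ≠ 0 := by
    have : β ≠ 0 := by linarith
    exact_mod_cast this
  have e1 : bs w 1 = 1 + w := by simp [bs]; ring
  rw [e1]
  simp [zero_cpow hb0]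

lemma arg_lt {z : ℂ} (hz : 0 < z.re) : |arg z| < Real.pi / 2 :=
  Complex.abs_arg_lt_pi_div_two_iff.2 (Or.inl hz)

/-- powers of products of right half-plane numbers -/
lemma mul_cpow' {a b : ℂ} (ha : 0 < a.re) (hb : 0 < b.re) (c : ℂ) :
    (a * b) ^ c = a ^ c * b ^ c := by
  have ha0 : a ≠ 0 := by rintro rfl; simp at ha
  have hb0 : b ≠ 0 := by rintro rfl; simp at hb
  have hA := abs_lt.1 (arg_lt ha)
  have hB := abs_lt.1 (arg_lt hb)
  have hl : log (a * b) = log a + log b := by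
    apply (Complex.log_mul_eq_add_log_iff ha0 hb0).2
    constructor <;> linarith [hA.1, hA.2, hB.1, hB.2]
  rw [cpow_def_of_ne_zero (mul_ne_zero ha0 hb0), cpow_def_of_ne_zero ha0,
    cpow_def_of_ne_zero hb0, hl, add_mul, exp_add]

/-- the quotient `(2 - s + w s) / (1 + w)` -/
noncomputable def qq (w : ℂ) (s : ℝ) : ℂ := s + 2 * (1 - s) * (1 + w)⁻¹

lemma one_add_re_pos {w : ℂ} (hw : 0 ≤ w.re) : 0 < (1 + w).re := by
  simp only [add_re, one_re]; linarith

lemma one_add_ne {w : ℂ} (hw : 0 ≤ w.re) : 1 + w ≠ 0 := by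
  intro h
  have := one_add_re_pos hw
  rw [h] at this
  simp at this

lemma inv_re_pos {z : ℂ} (hz : 0 < z.re) : 0 < (z⁻¹).re := by
  rw [inv_re]
  apply div_pos hz
  rw [normSq_pos]
  rintro rfl
  simp at hz

lemma qq_re_pos {w : ℂ} (hw : 0 ≤ w.re) {s : ℝ} (h0 : 0 < s) (h1 : s ≤ 1) :
    0 < (qq w s).re := by
  have h := inv_re_pos (one_add_re_pos hw)
  have e : (qq w s).re = s + 2 * (1 - s) * ((1 + w)⁻¹).re := by
    have : qq w s = (s : ℂ) + ((2 * (1 - s) : ℝ) : ℂ) * (1 + w)⁻¹ := by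
      simp only [qq]; push_cast; ring
    rw [this, add_re, ofReal_re, re_ofReal_mul]
  rw [e]
  have : 0 ≤ 2 * (1 - s) * ((1 + w)⁻¹).re := by
    apply mul_nonneg (by linarith) h.le
  linarith

lemma qq_norm_le {w : ℂ} (hw : 0 ≤ w.re) {s : ℝ} (h0 : 0 < s) (h1 : s ≤ 1) :
    ‖qq w s‖ ≤ 3 := by
  have hn : 1 ≤ ‖1 + w‖ := by
    have h1 := Complex.re_le_norm (1 + w)
    simp only [add_re, one_re] at h1
    linarith
  have hi : ‖(1 + w)⁻¹‖ ≤ 1 := by
    rw [norm_inv]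
    exact inv_le_one_of_one_le₀ hn
  have e : qq w s = (s : ℂ) + ((2 * (1 - s) : ℝ) : ℂ) * (1 + w)⁻¹ := by
    simp only [qq]; push_cast; ring
  rw [e]
  refine (norm_add_le _ _).trans ?_
  rw [norm_mul, Complex.norm_real, Complex.norm_real, Real.norm_eq_abs, Real.norm_eq_abs,
    abs_of_pos h0, abs_of_nonneg (by linarith)]
  have : 2 * (1 - s) * ‖(1 + w)⁻¹‖ ≤ 2 * (1 - s) * 1 :=
    mul_le_mul_of_nonneg_left hi (by linarith)
  linarith

lemma bs_eq {w : ℂ} (hw : 0 ≤ w.re) (s : ℝ) : bs w s = (1 + w) * qq w s := by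
  have h := one_add_ne hw
  simp only [bs, qq]
  field_simp
  ring

lemma F_div {β : ℝ} {w : ℂ} (hw : 0 ≤ w.re) {s : ℝ} (h0 : 0 < s) (h1 : s ≤ 1) :
    F β w s / (1 + w) ^ ((β - 1 : ℝ) : ℂ) =
      ((s : ℂ) ^ ((β - 1 : ℝ) : ℂ)) * (qq w s) ^ ((β - 1 : ℝ) : ℂ) := by
  have h := one_add_ne hw
  have hne : (1 + w) ^ ((β - 1 : ℝ) : ℂ) ≠ 0 := by
    intro h2
    rw [cpow_eq_zero_iff] at h2
    exact h h2.1
  rw [F, bs_eq hw, mul_cpow' (one_add_re_pos hw) (qq_re_pos hw h0 h1)]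
  field_simp

instance cg : (cobounded ℂ ⊓ 𝓟 {w : ℂ | 0 ≤ w.re}).IsCountablyGenerated := by
  have : (cobounded ℂ).IsCountablyGenerated := by
    rw [← comap_norm_atTop]; infer_instance
  infer_instance

lemma tendsto_inv_one_add :
    Tendsto (fun w : ℂ => (1 + w)⁻¹) (cobounded ℂ) (𝓝 0) := by
  have h1 : Tendsto (fun w : ℂ => 1 + w) (cobounded ℂ) (cobounded ℂ) := by
    rw [tendsto_norm_atTop_iff_cobounded.symm]
    have h2 : Tendsto (fun w : ℂ => ‖w‖ - 1) (cobounded ℂ) atTop :=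
      tendsto_atTop_add_const_right _ _ tendsto_norm_cobounded_atTop
    refine tendsto_atTop_mono (fun w => ?_) h2
    have := norm_sub_norm_le w (-1)
    rw [norm_neg, norm_one, sub_neg_eq_add, add_comm] at this
    exact this
  exact tendsto_inv₀_cobounded.comp h1

lemma limit_integral {β : ℝ} (hβ : 1 < β) :
    (∫ s in (0 : ℝ)..1, ((s : ℂ) ^ ((β - 1 : ℝ) : ℂ)) * (s : ℂ) ^ ((β - 1 : ℝ) : ℂ)) =
      1 / (2 * β - 1) := by
  have e : (∫ s in (0 : ℝ)..1, ((s : ℂ) ^ ((β - 1 : ℝ) : ℂ)) * (s : ℂ) ^ ((β - 1 : ℝ) : ℂ)) =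
      ∫ s in (0 : ℝ)..1, (((s : ℝ) ^ (2 * β - 2) : ℝ) : ℂ) := by
    apply intervalIntegral.integral_congr_ae
    refine Eventually.of_forall fun s hs => ?_
    rw [uIoc_of_le zero_le_one] at hs
    rw [← ofReal_cpow hs.1.le, ← ofReal_mul, ← Real.rpow_add hs.1]
    congr 2
    ring
  rw [e, intervalIntegral.integral_ofReal, integral_rpow (Or.inl (by linarith))]
  have h1 : (2 * β - 2 + 1) = 2 * β - 1 := by ring
  rw [h1, Real.one_rpow, Real.zero_rpow (by linarith)]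
  push_cast
  ring

/-- the real form -/
lemma J_real {β : ℝ} {x : ℝ} (hx : 0 ≤ x) :
    J β x = ((∫ s in (0 : ℝ)..1, s ^ (β - 1) * (2 - s + x * s) ^ (β - 1) : ℝ) : ℂ) := by
  rw [J_eq, ← intervalIntegral.integral_ofReal]
  apply intervalIntegral.integral_congr_ae
  refine Eventually.of_forall fun s hs => ?_
  rw [uIoc_of_le zero_le_one] at hs
  have h2 : 0 ≤ 2 - s + x * s := by nlinarith [hs.1, hs.2]
  have e : bs (x : ℂ) s = ((2 - s + x * s : ℝ) : ℂ) := by simp [bs]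
  rw [F, e, ← ofReal_cpow hs.1.le, ← ofReal_cpow h2, ← ofReal_mul]

lemma real_lower {β : ℝ} (hβ : 1 < β) {x : ℝ} (hx : 0 ≤ x) :
    1 / β ≤ ∫ s in (0 : ℝ)..1, s ^ (β - 1) * (2 - s + x * s) ^ (β - 1) := by
  have e : (∫ s in (0 : ℝ)..1, s ^ (β - 1)) = 1 / β := by
    rw [integral_rpow (Or.inl (by linarith))]
    have h1 : β - 1 + 1 = β := by ring
    rw [h1, Real.one_rpow, Real.zero_rpow (by linarith)]
    ring
  rw [← e]
  have hc1 : Continuous fun s : ℝ => s ^ (β - 1) := Real.continuous_rpow_const (by linarith)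
  have hc2 : Continuous fun s : ℝ => (2 - s + x * s) ^ (β - 1) :=
    (Real.continuous_rpow_const (q := β - 1) (by linarith)).comp
      (f := fun s : ℝ => 2 - s + x * s) (by fun_prop)
  apply intervalIntegral.integral_mono_on zero_le_one
  · exact hc1.intervalIntegrable _ _
  · exact (hc1.mul hc2).intervalIntegrable _ _
  · intro s hs
    have h1 : 1 ≤ (2 - s + x * s) ^ (β - 1) := by
      apply Real.one_le_rpow _ (by linarith)
      nlinarith [hs.1, hs.2, mul_nonneg hx hs.1]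
    have h2 : 0 ≤ s ^ (β - 1) := Real.rpow_nonneg hs.1 _
    nlinarith

end J_aux

open J_aux

theorem jode : JodeStmt := by
  intro β hβ w hw
  have hd := hasDerivAt_J β hβ hw
  refine ⟨?_, ?_⟩
  · have ho : IsOpen {w : ℂ | -1 < w.re} := isOpen_lt continuous_const continuous_re
    have hdiff : DifferentiableOn ℂ (J β) {w : ℂ | -1 < w.re} := fun z hz =>
      (hasDerivAt_J β hβ hz).differentiableAt.differentiableWithinAt
    exact hdiff.analyticAt (ho.mem_nhds hw)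
  · rw [hd.deriv, J_eq, parts β hβ hw]
    ring

theorem jinf : JinfStmt := by
  intro β hβ
  have hlim := limit_integral hβ
  rw [← hlim]
  have heq : ∀ᶠ w : ℂ in cobounded ℂ ⊓ 𝓟 {w | 0 ≤ w.re},
      (∫ s in (0 : ℝ)..1, ((s : ℂ) ^ ((β - 1 : ℝ) : ℂ)) * (qq w s) ^ ((β - 1 : ℝ) : ℂ)) =
        J β w / (1 + w) ^ ((β - 1 : ℝ) : ℂ) := by
    filter_upwards [mem_inf_of_right (mem_principal_self _)] with w hw
    rw [J_eq, ← intervalIntegral.integral_div]
    apply intervalIntegral.integral_congr_ae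
    refine Eventually.of_forall fun s hs => ?_
    rw [uIoc_of_le zero_le_one] at hs
    exact (F_div hw hs.1 hs.2).symm
  refine Tendsto.congr' heq ?_
  apply intervalIntegral.tendsto_integral_filter_of_dominated_convergence
    (bound := fun _ => (3 : ℝ) ^ (β - 1))
  · filter_upwards [mem_inf_of_right (mem_principal_self _)] with w hw
    have hw' : (0 : ℝ) ≤ w.re := hw
    have hc := contOn_F β hβ (w := w) (by linarith)
    have hm := (intble_of_contOn hc).def'.aestronglyMeasurable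
    have hm2 := hm.mul_const (((1 + w) ^ ((β - 1 : ℝ) : ℂ))⁻¹)
    refine hm2.congr ?_
    rw [uIoc_of_le zero_le_one]
    refine (ae_restrict_iff' measurableSet_Ioc).2 (Eventually.of_forall fun s hs => ?_)
    show F β w s * ((1 + w) ^ ((β - 1 : ℝ) : ℂ))⁻¹ =
      ((s : ℂ) ^ ((β - 1 : ℝ) : ℂ)) * (qq w s) ^ ((β - 1 : ℝ) : ℂ)
    rw [← F_div hw' hs.1 hs.2, div_eq_mul_inv]
  · filter_upwards [mem_inf_of_right (mem_principal_self _)] with w hw
    refine Eventually.of_forall fun s hs => ?_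
    rw [uIoc_of_le zero_le_one] at hs
    rw [norm_mul, norm_cpow_real, norm_cpow_real]
    have h1 : ‖(s : ℂ)‖ ^ (β - 1) ≤ 1 := by
      rw [Complex.norm_real, Real.norm_eq_abs, abs_of_pos hs.1]
      exact Real.rpow_le_one hs.1.le hs.2 (by linarith)
    have h2 : ‖qq w s‖ ^ (β - 1) ≤ 3 ^ (β - 1) :=
      Real.rpow_le_rpow (norm_nonneg _) (qq_norm_le hw hs.1 hs.2) (by linarith)
    calc ‖(s : ℂ)‖ ^ (β - 1) * ‖qq w s‖ ^ (β - 1)
        ≤ 1 * 3 ^ (β - 1) := mul_le_mul h1 h2 (Real.rpow_nonneg (norm_nonneg _) _) zero_le_one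
      _ = 3 ^ (β - 1) := one_mul _
  · exact intervalIntegrable_const
  · refine Eventually.of_forall fun s hs => ?_
    rw [uIoc_of_le zero_le_one] at hs
    have hq : Tendsto (fun w : ℂ => qq w s) (cobounded ℂ ⊓ 𝓟 {w | 0 ≤ w.re}) (𝓝 (s : ℂ)) := by
      have h := (tendsto_inv_one_add.const_mul (2 * (1 - (s : ℂ)))).const_add (s : ℂ)
      rw [mul_zero, add_zero] at h
      exact h.mono_left inf_le_left
    have hs0 : ((s : ℝ) : ℂ) ∈ slitPlane := Or.inl (by simpa using hs.1)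
    exact (((continuousAt_cpow_const (b := ((β - 1 : ℝ) : ℂ)) hs0).tendsto.comp hq)).const_mul _

theorem jsym : JsymStmt := by
  intro β hβ
  refine ⟨?_, ?_, ?_⟩
  · intro w hw
    rw [J_eq, J_eq, intervalIntegral.integral_of_le zero_le_one,
      intervalIntegral.integral_of_le zero_le_one, ← integral_conj]
    apply setIntegral_congr_fun measurableSet_Ioc
    intro s hs
    have hb : bs ((starRingEnd ℂ) w) s = (starRingEnd ℂ) (bs w s) := by
      have h2 : (starRingEnd ℂ) 2 = 2 := map_ofNat _ 2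
      simp only [bs, map_add, map_sub, map_mul, conj_ofReal, h2]
    have hpos := bs_re_pos (w := w) (s := s) (by linarith) hs.1.le hs.2
    have harg : (bs w s).arg ≠ Real.pi := by
      have := (abs_lt.1 (arg_lt hpos)).2
      intro h
      rw [h] at this
      linarith [Real.pi_pos]
    have h1 : (starRingEnd ℂ) ((bs w s) ^ ((β - 1 : ℝ) : ℂ)) =
        ((starRingEnd ℂ) (bs w s)) ^ ((β - 1 : ℝ) : ℂ) := by
      rw [conj_cpow _ _ harg, conj_ofReal]
    have h2 : (starRingEnd ℂ) ((s : ℂ) ^ ((β - 1 : ℝ) : ℂ)) = (s : ℂ) ^ ((β - 1 : ℝ) : ℂ) := by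
      rw [← ofReal_cpow hs.1.le, conj_ofReal]
    show F β ((starRingEnd ℂ) w) s = (starRingEnd ℂ) (F β w s)
    rw [F, F, map_mul, h1, h2, hb]
  · refine ⟨_, real_lower hβ le_rfl, ?_⟩
    have := J_real (β := β) (x := 0) le_rfl
    rw [ofReal_zero] at this
    exact this
  · intro x hx
    rw [J_real hx, ofReal_re]
    have h := real_lower hβ hx
    have : 0 < 1 / β := by positivity
    linarith

end Pool.Agent.TH337.AC
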