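import Mathlib
import Pool.Agent.TH337.AC.Stm

/-!
# Jack's lemma and the first-touch lemma
-/

set_option autoImplicit false

namespace Pool.Agent.TH337.AC

open Complex Filter Topology Bornology Metric Set

namespace JACK

/-- derivative of the square of the norm along a real curve -/
theorem normsq {F : ℝ → ℂ} {F' : ℂ} {t : ℝ} (h : HasDerivAt F F' t) :
    HasDerivAt (fun t => ‖F t‖ ^ 2) (2 * ((starRingEnd ℂ) (F t) * F').re) t := by
  have h1 := h.norm_sq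
  have e : inner ℝ (F t) F' = ((starRingEnd ℂ) (F t) * F').re := by
    rw [Complex.inner, mul_comm]
  rw [e] at h1
  exact h1

theorem left_nonneg {g : ℝ → ℝ} {g' : ℝ} (h : HasDerivAt g g' 1) (h1 : g 1 = 0)
    (h2 : ∀ᶠ r in 𝓝[<] (1 : ℝ), g r ≤ 0) : 0 ≤ g' := by
  have h3 : Tendsto (slope g 1) (𝓝[<] 1) (𝓝 g') := (hasDerivAt_iff_tendsto_slope.mp h).mono_left
    (nhdsWithin_mono (1 : ℝ) (fun x (hx : x < 1) => hx.ne))
  refine ge_of_tendsto h3 ?_
  filter_upwards [h2, self_mem_nhdsWithin] with r hr hr1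
  rw [slope_def_field, h1, sub_zero]
  exact div_nonneg_of_nonpos hr (by have : r < 1 := hr1; linarith)

end JACK

open JACK

/-- Jack's lemma -/
theorem jack : JackStmt := by
  intro ω z₀ hz hd hn hb
  obtain ⟨U, hUn, hUo, hU0⟩ := _root_.eventually_nhds_iff.mp (hd.and hb)
  have hr0 : 0 < ‖z₀‖ := norm_pos_iff.mpr hz
  obtain ⟨A, hA⟩ : ∃ A, A = (starRingEnd ℂ) (ω z₀) * (z₀ * deriv ω z₀) := ⟨_, rfl⟩
  have hcc : ω z₀ * (starRingEnd ℂ) (ω z₀) = 1 := by
    rw [Complex.mul_conj, Complex.normSq_eq_norm_sq, hn]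
    norm_num
  have hA2 : z₀ * deriv ω z₀ = A * ω z₀ := by
    rw [hA]
    calc z₀ * deriv ω z₀ = (ω z₀ * (starRingEnd ℂ) (ω z₀)) * (z₀ * deriv ω z₀) := by rw [hcc, one_mul]
      _ = _ := by ring
  have hω : HasDerivAt ω (deriv ω z₀) z₀ := (hUn z₀ hU0).1.hasDerivAt
  -- radial part
  have hre : 1 ≤ A.re := by
    have c1 : HasDerivAt (fun r : ℝ => (r : ℂ) * z₀) z₀ 1 := by
      have := (Complex.ofRealCLM.hasDerivAt (x := (1 : ℝ))).mul_const z₀
      simpa using this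
    have c2 : HasDerivAt (fun r : ℝ => ω ((r : ℂ) * z₀)) (deriv ω z₀ * z₀) 1 := by
      have h0 : HasDerivAt ω (deriv ω z₀) (((1 : ℝ) : ℂ) * z₀) := by
        rw [Complex.ofReal_one, one_mul]; exact hω
      exact h0.comp (1 : ℝ) c1
    have c3 := normsq c2
    have c4 : HasDerivAt (fun r : ℝ => ‖ω ((r : ℂ) * z₀)‖ ^ 2 - r ^ 2)
        (2 * ((starRingEnd ℂ) (ω (((1 : ℝ) : ℂ) * z₀)) * (deriv ω z₀ * z₀)).re - 2 * (1:ℝ)) 1 := by
      refine c3.sub ?_
      have := hasDerivAt_pow 2 (1 : ℝ)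
      simpa using this
    have c5 := left_nonneg c4 (by
      rw [Complex.ofReal_one, one_mul, hn]; norm_num) (by
      have hcont : Tendsto (fun r : ℝ => (r : ℂ) * z₀) (𝓝[<] 1) (𝓝 z₀) := by
        have : Tendsto (fun r : ℝ => (r : ℂ) * z₀) (𝓝 1) (𝓝 (((1 : ℝ) : ℂ) * z₀)) :=
          c1.continuousAt.tendsto
        rw [Complex.ofReal_one, one_mul] at this
        exact this.mono_left nhdsWithin_le_nhds
      have hpos : ∀ᶠ r : ℝ in 𝓝[<] (1 : ℝ), 0 < r :=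
        nhdsWithin_le_nhds (lt_mem_nhds one_pos)
      filter_upwards [hcont.eventually (hUo.mem_nhds hU0), self_mem_nhdsWithin, hpos] with r h1 h2 h3
      have h2' : r < 1 := h2
      have h4 : ‖(r : ℂ) * z₀‖ = r * ‖z₀‖ := by
        rw [norm_mul, Complex.norm_real, Real.norm_of_nonneg h3.le]
      have h5 := (hUn _ h1).2 (by rw [h4]; nlinarith)
      rw [h4, mul_div_assoc, div_self hr0.ne', mul_one] at h5
      have h6 : ‖ω ((r : ℂ) * z₀)‖ ^ 2 ≤ r ^ 2 := pow_le_pow_left₀ (norm_nonneg _) h5 2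
      linarith)
    rw [Complex.ofReal_one, one_mul] at c5
    have e : (starRingEnd ℂ) (ω z₀) * (deriv ω z₀ * z₀) = A := by rw [hA]; ring
    rw [e] at c5
    linarith
  -- tangential part
  have hsph : ∀ z ∈ U, ‖z‖ = ‖z₀‖ → ‖ω z‖ ≤ 1 := by
    intro z hzU hzn
    have hcz : Tendsto (fun r : ℝ => (r : ℂ) * z) (𝓝[<] 1) (𝓝 z) := by
      have h1 : Continuous (fun r : ℝ => (r : ℂ) * z) := by fun_prop
      have := h1.tendsto 1
      rw [Complex.ofReal_one, one_mul] at this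
      exact this.mono_left nhdsWithin_le_nhds
    have hlim : Tendsto (fun r : ℝ => ‖ω ((r : ℂ) * z)‖) (𝓝[<] 1) (𝓝 ‖ω z‖) :=
      (((hUn z hzU).1.continuousAt.tendsto).comp hcz).norm
    refine le_of_tendsto hlim ?_
    have hpos : ∀ᶠ r : ℝ in 𝓝[<] (1 : ℝ), 0 < r :=
      nhdsWithin_le_nhds (lt_mem_nhds one_pos)
    filter_upwards [hcz.eventually (hUo.mem_nhds hzU), self_mem_nhdsWithin, hpos] with r h1 h2 h3
    have h2' : r < 1 := h2
    have h4 : ‖(r : ℂ) * z‖ = r * ‖z₀‖ := by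
      rw [norm_mul, Complex.norm_real, Real.norm_of_nonneg h3.le, hzn]
    have h5 := (hUn _ h1).2 (by rw [h4]; nlinarith)
    rw [h4, mul_div_assoc, div_self hr0.ne', mul_one] at h5
    linarith
  have him : A.im = 0 := by
    have c1 : HasDerivAt (fun θ : ℝ => z₀ * Complex.exp ((θ : ℂ) * I)) (z₀ * I) 0 := by
      have h1 : HasDerivAt (fun θ : ℝ => (θ : ℂ) * I) I 0 := by
        have := (Complex.ofRealCLM.hasDerivAt (x := (0 : ℝ))).mul_const I
        simpa using this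
      have h2 := h1.cexp.const_mul z₀
      simpa using h2
    have c2 : HasDerivAt (fun θ : ℝ => ω (z₀ * Complex.exp ((θ : ℂ) * I))) (deriv ω z₀ * (z₀ * I)) 0 := by
      have h0 : HasDerivAt ω (deriv ω z₀) (z₀ * Complex.exp (((0 : ℝ) : ℂ) * I)) := by
        rw [Complex.ofReal_zero, zero_mul, Complex.exp_zero, mul_one]; exact hω
      exact h0.comp (0 : ℝ) c1
    have c3 := normsq c2
    have hmax : IsLocalMax (fun θ : ℝ => ‖ω (z₀ * Complex.exp ((θ : ℂ) * I))‖ ^ 2) 0 := by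
      have hcont : Tendsto (fun θ : ℝ => z₀ * Complex.exp ((θ : ℂ) * I)) (𝓝 0) (𝓝 z₀) := by
        have := c1.continuousAt.tendsto
        rw [Complex.ofReal_zero, zero_mul, Complex.exp_zero, mul_one] at this
        exact this
      filter_upwards [hcont.eventually (hUo.mem_nhds hU0)] with θ hθ
      have h1 := hsph _ hθ (by rw [norm_mul, Complex.norm_exp_ofReal_mul_I, mul_one])
      show ‖ω (z₀ * Complex.exp ((θ : ℂ) * I))‖ ^ 2 ≤
        ‖ω (z₀ * Complex.exp (((0 : ℝ) : ℂ) * I))‖ ^ 2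
      rw [Complex.ofReal_zero, zero_mul, Complex.exp_zero, mul_one, hn]
      exact pow_le_pow_left₀ (norm_nonneg _) h1 2
    have c4 := hmax.hasDerivAt_eq_zero c3
    rw [Complex.ofReal_zero, zero_mul, Complex.exp_zero, mul_one] at c4
    have e : (starRingEnd ℂ) (ω z₀) * (deriv ω z₀ * (z₀ * I)) = A * I := by rw [hA]; ring
    rw [e, Complex.mul_I_re] at c4
    linarith
  refine ⟨A.re, hre, ?_⟩
  have hAr : A = (A.re : ℂ) := by
    apply Complex.ext
    · simp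
    · simp [him]
  rw [hA2]
  conv_lhs => rw [hAr]

namespace JACK

/-- the Cayley map -/
noncomputable def ph (z : ℂ) : ℂ := (1 + z) / (1 - z)

theorem ne_of_ball {z : ℂ} (hz : z ∈ ball (0 : ℂ) 1) : 1 - z ≠ 0 := by
  intro h
  have : z = 1 := by linear_combination -h
  rw [this, mem_ball_zero_iff, norm_one] at hz
  exact lt_irrefl _ hz

theorem ph_re {z : ℂ} (hz : z ∈ ball (0 : ℂ) 1) : 0 < (ph z).re := by
  have hne := ne_of_ball hz
  rw [mem_ball_zero_iff] at hz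
  unfold ph
  rw [Complex.div_re, ← add_div]
  have hpos : 0 < normSq (1 - z) := Complex.normSq_pos.mpr hne
  refine div_pos ?_ hpos
  have h1 : ‖z‖ ^ 2 < 1 := by
    have := norm_nonneg z
    nlinarith
  rw [← Complex.normSq_eq_norm_sq, Complex.normSq_apply] at h1
  simp only [Complex.add_re, Complex.one_re, Complex.sub_re, Complex.add_im, Complex.one_im,
    Complex.sub_im]
  nlinarith

theorem ph_deriv {z : ℂ} (hz : z ∈ ball (0 : ℂ) 1) : HasDerivAt ph (2 / (1 - z) ^ 2) z := by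
  have hne := ne_of_ball hz
  have h1 : HasDerivAt (fun z : ℂ => 1 + z) 1 z := (hasDerivAt_id z).const_add 1
  have h2 : HasDerivAt (fun z : ℂ => 1 - z) (-1) z := (hasDerivAt_id z).const_sub 1
  have h3 := h1.div h2 hne
  have e : (1 * (1 - z) - (1 + z) * -1) / (1 - z) ^ 2 = 2 / (1 - z) ^ 2 := by
    congr 1
    ring
  rw [e] at h3
  exact h3

theorem inv_ball {w : ℂ} (hw : 0 < w.re) : (w - 1) / (w + 1) ∈ ball (0 : ℂ) 1 ∧
    ph ((w - 1) / (w + 1)) = w := by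
  have h1 : w + 1 ≠ 0 := by
    intro h
    have := congrArg Complex.re h
    simp at this
    linarith
  constructor
  · rw [mem_ball_zero_iff, norm_div, div_lt_one (norm_pos_iff.mpr h1)]
    rw [← sq_lt_sq₀ (norm_nonneg _) (norm_nonneg _), ← Complex.normSq_eq_norm_sq,
      ← Complex.normSq_eq_norm_sq, Complex.normSq_apply, Complex.normSq_apply]
    simp only [Complex.sub_re, Complex.one_re, Complex.sub_im, Complex.one_im, Complex.add_re,
      Complex.add_im]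
    nlinarith
  · unfold ph
    have h2 : 1 - (w - 1) / (w + 1) ≠ 0 := by
      have e : 1 - (w - 1) / (w + 1) = 2 / (w + 1) := by field_simp; ring
      rw [e]
      exact div_ne_zero two_ne_zero h1
    rw [div_eq_iff h2]
    field_simp
    ring

end JACK

/-- first-touch lemma -/
theorem mm (hj : JackStmt) : MMStmt := by
  intro S s₀ hs0 hS hS1 hyp w hw
  by_contra hcon
  push Not at hcon
  obtain ⟨s, hs⟩ : ∃ s : ℂ → ℂ, s = fun z => S (ph z) := ⟨_, rfl⟩
  have hHo : IsOpen {w : ℂ | 0 < w.re} := isOpen_lt continuous_const Complex.continuous_re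
  have hsd : ∀ z ∈ ball (0 : ℂ) 1, HasDerivAt s (deriv S (ph z) * (2 / (1 - z) ^ 2)) z := by
    intro z hz
    rw [hs]
    have h1 : HasDerivAt S (deriv S (ph z)) (ph z) :=
      (hS.differentiableAt (hHo.mem_nhds (ph_re hz))).hasDerivAt
    exact h1.comp z (ph_deriv hz)
  have hsc : ∀ z ∈ ball (0 : ℂ) 1, ContinuousAt s z := fun z hz => (hsd z hz).continuousAt
  have hs00 : s 0 = s₀ := by
    rw [hs]
    show S (ph 0) = s₀
    unfold ph
    rw [add_zero, sub_zero, div_one, hS1]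
  obtain ⟨hz1, hz1'⟩ := inv_ball hw
  obtain ⟨z₁, hz₁⟩ : ∃ z₁, z₁ = (w - 1) / (w + 1) := ⟨_, rfl⟩
  rw [← hz₁] at hz1 hz1'
  have hsub : closedBall (0 : ℂ) ‖z₁‖ ⊆ ball (0 : ℂ) 1 := by
    intro z hz
    rw [mem_closedBall_zero_iff] at hz
    rw [mem_ball_zero_iff] at hz1 ⊢
    linarith
  -- the set of bad points
  have hK : IsCompact (closedBall (0 : ℂ) ‖z₁‖ ∩ (fun z => (s z).re) ⁻¹' Set.Iic 0) := by
    have hc : ContinuousOn (fun z => (s z).re) (closedBall (0 : ℂ) ‖z₁‖) := fun z hz =>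
      (Complex.continuous_re.continuousAt.comp (hsc z (hsub hz))).continuousWithinAt
    have hcl := hc.preimage_isClosed_of_isClosed isClosed_closedBall (isClosed_Iic (a := (0 : ℝ)))
    exact (isCompact_closedBall _ _).of_isClosed_subset hcl Set.inter_subset_left
  have hKne : (closedBall (0 : ℂ) ‖z₁‖ ∩ (fun z => (s z).re) ⁻¹' Set.Iic 0).Nonempty := by
    refine ⟨z₁, mem_closedBall_zero_iff.mpr le_rfl, ?_⟩
    show (s z₁).re ≤ 0
    rw [hs]
    show (S (ph z₁)).re ≤ 0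
    rw [hz1']
    exact hcon
  obtain ⟨z₀, hz0K, hmin⟩ := hK.exists_isMinOn hKne continuous_norm.continuousOn
  have hz0b : z₀ ∈ ball (0 : ℂ) 1 := hsub hz0K.1
  have hz0le : (s z₀).re ≤ 0 := hz0K.2
  have hz0n : ‖z₀‖ ≤ ‖z₁‖ := mem_closedBall_zero_iff.mp hz0K.1
  have hz0ne : z₀ ≠ 0 := by
    intro h
    rw [h, hs00, Complex.ofReal_re] at hz0le
    linarith
  have hr0 : 0 < ‖z₀‖ := norm_pos_iff.mpr hz0ne
  have hpos : ∀ z, ‖z‖ < ‖z₀‖ → 0 < (s z).re := by
    intro z hz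
    by_contra hc
    push Not at hc
    have h1 : z ∈ closedBall (0 : ℂ) ‖z₁‖ ∩ (fun z => (s z).re) ⁻¹' Set.Iic 0 :=
      ⟨mem_closedBall_zero_iff.mpr (by linarith), hc⟩
    have h2 := hmin h1
    have h3 : ‖z₀‖ ≤ ‖z‖ := h2
    linarith
  have hz0ball : ∀ z, ‖z‖ < ‖z₀‖ → z ∈ ball (0 : ℂ) 1 := by
    intro z hz
    rw [mem_ball_zero_iff] at hz0b ⊢
    linarith
  have hz0re : (s z₀).re = 0 := by
    refine le_antisymm hz0le ?_
    have hcz : Tendsto (fun r : ℝ => (r : ℂ) * z₀) (𝓝[<] 1) (𝓝 z₀) := by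
      have h1 : Continuous (fun r : ℝ => (r : ℂ) * z₀) := by fun_prop
      have := h1.tendsto 1
      rw [Complex.ofReal_one, one_mul] at this
      exact this.mono_left nhdsWithin_le_nhds
    have hlim : Tendsto (fun r : ℝ => (s ((r : ℂ) * z₀)).re) (𝓝[<] 1) (𝓝 (s z₀).re) :=
      ((Complex.continuous_re.continuousAt.comp (hsc z₀ hz0b)).tendsto).comp hcz
    refine ge_of_tendsto hlim ?_
    have hpos' : ∀ᶠ r : ℝ in 𝓝[<] (1 : ℝ), 0 < r :=
      nhdsWithin_le_nhds (lt_mem_nhds one_pos)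
    filter_upwards [self_mem_nhdsWithin, hpos'] with r h2 h3
    have h2' : r < 1 := h2
    have h4 : ‖(r : ℂ) * z₀‖ = r * ‖z₀‖ := by
      rw [norm_mul, Complex.norm_real, Real.norm_of_nonneg h3.le]
    exact (hpos _ (by rw [h4]; nlinarith)).le
  -- the function `ω`
  obtain ⟨ω, hω⟩ : ∃ ω : ℂ → ℂ, ω = fun z => ((s₀ : ℂ) - s z) / ((s₀ : ℂ) + s z) := ⟨_, rfl⟩
  have hne : ∀ z, 0 ≤ (s z).re → (s₀ : ℂ) + s z ≠ 0 := by
    intro z hz h
    have := congrArg Complex.re h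
    simp only [Complex.add_re, Complex.ofReal_re, Complex.zero_re] at this
    linarith
  have hωd : ∀ z ∈ ball (0 : ℂ) 1, (s₀ : ℂ) + s z ≠ 0 →
      HasDerivAt ω (-(2 * s₀ * deriv s z) / ((s₀ : ℂ) + s z) ^ 2) z := by
    intro z hz hnz
    rw [hω]
    have h1 := (hsd z hz)
    have h1' : HasDerivAt s (deriv s z) z := h1.differentiableAt.hasDerivAt
    have h2 := (h1'.const_sub (s₀ : ℂ)).div (h1'.const_add (s₀ : ℂ)) hnz
    have e : (-deriv s z * ((s₀ : ℂ) + s z) - ((s₀ : ℂ) - s z) * deriv s z) / ((s₀ : ℂ) + s z) ^ 2 =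
        -(2 * s₀ * deriv s z) / ((s₀ : ℂ) + s z) ^ 2 := by
      congr 1
      ring
    rw [e] at h2
    exact h2
  have hω0 : ω 0 = 0 := by
    rw [hω]
    show ((s₀ : ℂ) - s 0) / ((s₀ : ℂ) + s 0) = 0
    rw [hs00, sub_self, zero_div]
  have hmaps : MapsTo ω (ball 0 ‖z₀‖) (ball (ω 0) 1) := by
    intro z hz
    rw [mem_ball_zero_iff] at hz
    have h1 := hpos z hz
    rw [hω0, mem_ball_zero_iff, hω]
    show ‖((s₀ : ℂ) - s z) / ((s₀ : ℂ) + s z)‖ < 1
    rw [norm_div, div_lt_one (norm_pos_iff.mpr (hne z h1.le))]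
    rw [← sq_lt_sq₀ (norm_nonneg _) (norm_nonneg _), ← Complex.normSq_eq_norm_sq,
      ← Complex.normSq_eq_norm_sq, Complex.normSq_apply, Complex.normSq_apply]
    simp only [Complex.sub_re, Complex.ofReal_re, Complex.sub_im, Complex.ofReal_im, Complex.add_re,
      Complex.add_im]
    nlinarith
  have hdiff : DifferentiableOn ℂ ω (ball 0 ‖z₀‖) := by
    intro z hz
    rw [mem_ball_zero_iff] at hz
    exact (hωd z (hz0ball z hz) (hne z (hpos z hz).le)).differentiableAt.differentiableWithinAt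
  have hb : ∀ z, ‖z‖ < ‖z₀‖ → ‖ω z‖ ≤ ‖z‖ / ‖z₀‖ := by
    intro z hz
    have h1 := dist_le_div_mul_dist_of_mapsTo_ball hdiff (hmaps.mono_right ball_subset_closedBall)
      (mem_ball_zero_iff.mpr hz)
    rw [hω0, dist_zero_right, dist_zero_right] at h1
    calc ‖ω z‖ ≤ 1 / ‖z₀‖ * ‖z‖ := h1
      _ = ‖z‖ / ‖z₀‖ := by ring
  have hn0 : (s₀ : ℂ) + s z₀ ≠ 0 := hne z₀ hz0re.ge
  have hnorm : ‖ω z₀‖ = 1 := by
    rw [hω]
    show ‖((s₀ : ℂ) - s z₀) / ((s₀ : ℂ) + s z₀)‖ = 1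
    rw [norm_div, div_eq_one_iff_eq (norm_ne_zero_iff.mpr hn0)]
    rw [← sq_eq_sq₀ (norm_nonneg _) (norm_nonneg _), ← Complex.normSq_eq_norm_sq,
      ← Complex.normSq_eq_norm_sq, Complex.normSq_apply, Complex.normSq_apply]
    simp only [Complex.sub_re, Complex.ofReal_re, Complex.sub_im, Complex.ofReal_im, Complex.add_re,
      Complex.add_im, hz0re]
    ring
  have hev : ∀ᶠ z in 𝓝 z₀, DifferentiableAt ℂ ω z := by
    have h1 : ∀ᶠ z in 𝓝 z₀, z ∈ ball (0 : ℂ) 1 := isOpen_ball.mem_nhds hz0b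
    have h2 : ∀ᶠ z in 𝓝 z₀, (s₀ : ℂ) + s z ≠ 0 :=
      ((continuousAt_const.add (hsc z₀ hz0b)).eventually_ne hn0)
    filter_upwards [h1, h2] with z g1 g2
    exact (hωd z g1 g2).differentiableAt
  obtain ⟨m, hm, hmeq⟩ := hj ω z₀ hz0ne hev hnorm (Eventually.of_forall hb)
  -- the derivative
  rw [(hωd z₀ hz0b hn0).deriv] at hmeq
  have hωz : ω z₀ = ((s₀ : ℂ) - s z₀) / ((s₀ : ℂ) + s z₀) := by rw [hω]
  rw [hωz] at hmeq
  have hs0' : (s₀ : ℂ) ≠ 0 := Complex.ofReal_ne_zero.mpr hs0.ne'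
  have hkey : z₀ * deriv s z₀ = -(m * (((s₀ : ℂ) - s z₀) * ((s₀ : ℂ) + s z₀)) / (2 * s₀)) := by
    field_simp at hmeq ⊢
    linear_combination -hmeq
  have hsz : s z₀ = ((s z₀).im : ℂ) * I := by
    apply Complex.ext
    · simp [hz0re]
    · simp
  have hreal : z₀ * deriv s z₀ = ((-(m * (s₀ ^ 2 + (s z₀).im ^ 2) / (2 * s₀)) : ℝ) : ℂ) := by
    rw [hkey]
    push_cast
    congr 2
    rw [hsz]
    have hI : I ^ 2 = -1 := Complex.I_sq
    simp only [Complex.mul_I_im, Complex.ofReal_re]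
    linear_combination (-(m : ℂ) * ((s z₀).im : ℂ) ^ 2) * hI
  -- back to the half plane
  have hback : (ph z₀ ^ 2 - 1) / 2 * deriv S (ph z₀) = z₀ * deriv s z₀ := by
    rw [(hsd z₀ hz0b).deriv]
    have hne0 := ne_of_ball hz0b
    unfold ph
    field_simp
    ring
  have hSs : S (ph z₀) = s z₀ := by rw [hs]
  have hfin := hyp (ph z₀) (ph_re hz0b) (by rw [hSs]; exact hz0re) (by
    rw [hback, hreal, Complex.ofReal_im])
  rw [hback, hreal, Complex.ofReal_re, hSs] at hfin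
  have h5 : 0 < (s₀ ^ 2 + (s z₀).im ^ 2) / (2 * s₀) := by positivity
  have h6 : m * (s₀ ^ 2 + (s z₀).im ^ 2) / (2 * s₀) = m * ((s₀ ^ 2 + (s z₀).im ^ 2) / (2 * s₀)) := by
    ring
  have h7 : -(s₀ ^ 2 + (s z₀).im ^ 2) / (2 * s₀) = -((s₀ ^ 2 + (s z₀).im ^ 2) / (2 * s₀)) := by ring
  rw [h6, h7] at hfin
  nlinarith

end Pool.Agent.TH337.AC
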