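import Mathlib
import Pool.Agent.TH337.AC.Stm

set_option autoImplicit false

namespace Pool.Agent.TH337.AC

open Complex Filter Topology Bornology Metric Set

theorem loglift : LogLiftStmt := by
  intro lam hlam hst z₁ z₂ hz₁ hz₁0 hz₂ h12 hcont m hm heq
  have hn1 : 0 < ‖z₁‖ := norm_pos_iff.2 hz₁0
  have hn2 : 0 < ‖z₂‖ := lt_of_lt_of_le hn1 h12
  have hz₂0 : z₂ ≠ 0 := norm_pos_iff.1 hn2
  have hm0 : (0:ℝ) < m := by linarith
  have hmc : ((Real.log m : ℝ) : ℂ) = Complex.log m := by
    rw [Complex.ofReal_log hm0.le]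
  have hmc0 : (m : ℂ) ≠ 0 := by exact_mod_cast hm0.ne'
  have e1 : exp (Complex.log z₁ + lam z₁) = exp (((Real.log m : ℝ) : ℂ) + Complex.log z₂ + lam z₂) := by
    rw [exp_add, exp_add, exp_add, hmc, exp_log hz₁0, exp_log hz₂0, exp_log hmc0, heq]
    ring
  obtain ⟨k, hk⟩ := Complex.exp_eq_exp_iff_exists_int.1 e1
  set ζ₁ : ℂ := Complex.log z₁ - k * (2 * Real.pi * I) with hζ₁
  set ζ₂ : ℂ := Complex.log z₂ with hζ₂
  have hexp1 : exp ζ₁ = z₁ := by
    rw [hζ₁, exp_sub, exp_log hz₁0]
    have : exp ((k : ℂ) * (2 * Real.pi * I)) = 1 := Complex.exp_int_mul_two_pi_mul_I k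
    rw [this, div_one]
  have hexp2 : exp ζ₂ = z₂ := exp_log hz₂0
  have hre1 : ζ₁.re = Real.log ‖z₁‖ := by
    have h1 : ‖exp ζ₁‖ = ‖z₁‖ := by rw [hexp1]
    rw [norm_exp] at h1
    rw [← h1, Real.log_exp]
  have hre2 : ζ₂.re = Real.log ‖z₂‖ := by
    have h1 : ‖exp ζ₂‖ = ‖z₂‖ := by rw [hexp2]
    rw [norm_exp] at h1
    rw [← h1, Real.log_exp]
  have hre1n : ζ₁.re < 0 := by
    rw [hre1]
    exact Real.log_neg hn1 (by simpa using hz₁)
  have hre2n : ζ₂.re ≤ 0 := by
    rw [hre2]
    exact Real.log_nonpos hn2.le hz₂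
  have hre12 : ζ₁.re ≤ ζ₂.re := by
    rw [hre1, hre2]
    exact Real.log_le_log hn1 h12
  set d : ℂ := ζ₁ - ζ₂ with hd
  have hdiff : d + lam z₁ - lam z₂ = ((Real.log m : ℝ) : ℂ) := by
    rw [hd, hζ₁]
    linear_combination hk
  by_cases hd0 : d = 0
  · rw [← hexp1, ← hexp2]
    congr 1
    exact sub_eq_zero.1 hd0
  exfalso
  set z : ℝ → ℂ := fun t => exp (ζ₂ + t * d) with hz
  have hz0 : z 0 = z₂ := by simp [hz, hexp2]
  have hz1 : z 1 = z₁ := by
    simp only [hz, ofReal_one, one_mul, hd]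
    rw [add_sub_cancel, hexp1]
  have hzball : ∀ t : ℝ, 0 < t → t ≤ 1 → z t ∈ ball (0 : ℂ) 1 := by
    intro t h0 h1
    rw [mem_ball_zero_iff, hz, norm_exp, Real.exp_lt_one_iff]
    have : (ζ₂ + t * d).re = (1 - t) * ζ₂.re + t * ζ₁.re := by
      rw [hd, add_re, re_ofReal_mul, sub_re]
      ring
    rw [this]
    nlinarith
  have hzder : ∀ t : ℝ, HasDerivAt z (z t * d) t := by
    intro t
    have h1 : HasDerivAt (fun t : ℝ => ζ₂ + (t : ℂ) * d) d t := by
      have h2 : HasDerivAt (fun t : ℝ => (t : ℂ)) 1 t := ofRealCLM.hasDerivAt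
      simpa using (h2.mul_const d).const_add ζ₂
    exact h1.cexp
  have hzcont : Continuous z := continuous_iff_continuousAt.2 fun t => (hzder t).continuousAt
  set Φ : ℝ → ℂ := fun t => ζ₂ + t * d + lam (z t) with hΦ
  have hΦder : ∀ t : ℝ, 0 < t → t ≤ 1 → HasDerivAt Φ (d * (1 + z t * deriv lam (z t))) t := by
    intro t h0 h1
    have h2 : HasDerivAt (fun t : ℝ => ζ₂ + (t : ℂ) * d) d t := by
      have h3 : HasDerivAt (fun t : ℝ => (t : ℂ)) 1 t := ofRealCLM.hasDerivAt
      simpa using (h3.mul_const d).const_add ζ₂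
    have h4 : HasDerivAt lam (deriv lam (z t)) (z t) :=
      (hlam.differentiableAt (isOpen_ball.mem_nhds (hzball t h0 h1))).hasDerivAt
    exact (h2.add (h4.scomp t (hzder t))).congr_deriv (by rw [smul_eq_mul]; ring)
  have hΦcont : ContinuousOn Φ (Icc 0 1) := by
    intro t ht
    rcases eq_or_lt_of_le ht.1 with h0 | h0
    · subst h0
      have h1 : ContinuousWithinAt (fun t : ℝ => ζ₂ + (t : ℂ) * d) (Icc 0 1) 0 := by
        apply Continuous.continuousWithinAt
        fun_prop
      have h2 : ContinuousWithinAt lam (insert z₂ (ball 0 1)) (z 0) := by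
        rw [hz0]
        exact continuousWithinAt_insert_self.2 hcont
      have h3 : ContinuousWithinAt (fun t => lam (z t)) (Icc 0 1) 0 := by
        refine h2.comp hzcont.continuousWithinAt ?_
        intro t ht
        rcases eq_or_lt_of_le ht.1 with h4 | h4
        · rw [← h4, hz0]
          exact mem_insert _ _
        · exact mem_insert_of_mem _ (hzball t h4 ht.2)
      exact h1.add h3
    · exact (hΦder t h0 ht.2).continuousAt.continuousWithinAt
  set h : ℝ → ℝ := fun t => (Φ t * (starRingEnd ℂ) d).re with hh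
  have hhder : ∀ t : ℝ, 0 < t → t ≤ 1 →
      HasDerivAt h (normSq d * (1 + z t * deriv lam (z t)).re) t := by
    intro t h0 h1
    have h2 := (hΦder t h0 h1).mul_const ((starRingEnd ℂ) d)
    have h3 := (reCLM.hasFDerivAt (x := Φ t * (starRingEnd ℂ) d)).comp_hasDerivAt t h2
    have e : reCLM (d * (1 + z t * deriv lam (z t)) * (starRingEnd ℂ) d) =
        normSq d * (1 + z t * deriv lam (z t)).re := by
      have : d * (1 + z t * deriv lam (z t)) * (starRingEnd ℂ) d =
          ((normSq d : ℝ) : ℂ) * (1 + z t * deriv lam (z t)) := by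
        rw [← mul_conj]
        ring
      rw [reCLM_apply, this, re_ofReal_mul]
    rw [e] at h3
    exact h3
  have hmono : StrictMonoOn h (Icc 0 1) := by
    apply strictMonoOn_of_deriv_pos (convex_Icc 0 1)
    · have h1 : ContinuousOn (fun t => Φ t * (starRingEnd ℂ) d) (Icc 0 1) := hΦcont.mul continuousOn_const
      exact continuous_re.comp_continuousOn h1
    · intro t ht
      rw [interior_Icc] at ht
      rw [(hhder t ht.1 ht.2.le).deriv]
      exact mul_pos (normSq_pos.2 hd0) (hst _ (hzball t ht.1 ht.2.le))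
  have hlt := hmono (left_mem_Icc.2 zero_le_one) (right_mem_Icc.2 zero_le_one) one_pos
  have hval : h 1 - h 0 = Real.log m * d.re := by
    simp only [hh, hΦ, hz0, hz1, ofReal_one, ofReal_zero, one_mul, zero_mul, add_zero]
    rw [← sub_re, ← sub_mul]
    have : ζ₂ + d + lam z₁ - (ζ₂ + lam z₂) = ((Real.log m : ℝ) : ℂ) := by
      rw [← hdiff]
      ring
    rw [this, re_ofReal_mul, conj_re]
  have hlogm : 0 ≤ Real.log m := Real.log_nonneg hm
  have hdre : d.re ≤ 0 := by
    rw [hd, sub_re]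
    linarith
  nlinarith

theorem pl : PLStmt := by
  intro f K hf hgr hre him w hw
  have key : ‖(fun z => exp (-f z)) w‖ ≤ 1 := by
    apply PhragmenLindelof.right_half_plane_of_bounded_on_real (C := 1) (f := fun z => exp (-f z))
    · exact ⟨hf.differentiableOn.neg.cexp, hf.continuousOn.neg.cexp⟩
    · refine ⟨1, by norm_num, |K|, ?_⟩
      refine Asymptotics.IsBigO.of_bound (Real.exp |K|) ?_
      refine eventually_inf_principal.2 (Eventually.of_forall fun z hz => ?_)
      rw [norm_exp, Real.rpow_one, Real.norm_eq_abs, abs_of_pos (Real.exp_pos _), ← Real.exp_add]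
      apply Real.exp_le_exp.2
      rw [neg_re]
      have h1 := hgr z hz
      have h2 := neg_le_of_abs_le ((abs_re_le_norm (f z)).trans h1)
      have h3 : K * (1 + ‖z‖) ≤ |K| * (1 + ‖z‖) :=
        mul_le_mul_of_nonneg_right (le_abs_self K) (by positivity)
      linarith
    · refine ⟨Real.exp K, ?_⟩
      rw [eventually_map]
      filter_upwards [eventually_gt_atTop (0:ℝ)] with x hx
      rw [norm_exp, neg_re]
      apply Real.exp_le_exp.2
      linarith [hre x hx]
    · intro x
      rw [norm_exp, neg_re]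
      apply Real.exp_le_one_iff.2
      linarith [him x]
    · exact hw.le
  simp only at key
  rw [norm_exp, neg_re, Real.exp_le_one_iff] at key
  linarith

end Pool.Agent.TH337.AC
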