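import Mathlib
import Pool.Agent.TH337.AC.Stm

/-!
# Subordination lemma (Miller-Mocanu)
-/

set_option autoImplicit false

open Complex Filter Topology Bornology Metric Set

namespace Pool.Agent.TH337.AC

namespace SUB

/-- the closed right half-plane -/
def K : Set ℂ := {w | 0 ≤ w.re}

/-- the open right half-plane -/
def H : Set ℂ := {w | 0 < w.re}

lemma isClosed_K : IsClosed K := isClosed_le continuous_const continuous_re

lemma isOpen_H : IsOpen H := isOpen_lt continuous_const continuous_re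

lemma H_subset_K : H ⊆ K := fun w hw => le_of_lt (show 0 < w.re from hw)

/-- the restriction to the closed half-plane is a closed embedding -/
lemma closedEmb {Ψ : ℂ → ℂ} (hc : ContinuousOn Ψ K) (hinj : InjOn Ψ K)
    (hinf : Tendsto (fun w => ‖Ψ w‖) (cobounded ℂ ⊓ 𝓟 K) atTop) :
    IsClosedEmbedding (K.domRestrict Ψ) := by
  have hcont : Continuous (K.domRestrict Ψ) := continuousOn_iff_continuous_domRestrict.mp hc
  have hval : Tendsto (Subtype.val : K → ℂ) (cocompact K) (cobounded ℂ ⊓ 𝓟 K) := by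
    refine tendsto_inf.mpr ⟨?_, ?_⟩
    · have h := (isClosed_K.isClosedEmbedding_subtypeVal).tendsto_cocompact
      rwa [← Metric.cobounded_eq_cocompact (α := ℂ)] at h
    · rw [tendsto_principal]
      exact Eventually.of_forall (fun x => x.2)
  have hpr : IsProperMap (K.domRestrict Ψ) := by
    rw [isProperMap_iff_tendsto_cocompact]
    refine ⟨hcont, ?_⟩
    rw [← Metric.cobounded_eq_cocompact (α := ℂ), ← tendsto_norm_atTop_iff_cobounded]
    exact hinf.comp hval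
  exact IsClosedEmbedding.of_continuous_injective_isClosedMap hcont
    (injOn_iff_injective.mp hinj) hpr.isClosedMap

/-- the inverse function on the image of the closed half-plane -/
noncomputable def inv (Ψ : ℂ → ℂ) : ℂ → ℂ := Function.invFunOn Ψ K

lemma inv_mem {Ψ : ℂ → ℂ} {y : ℂ} (hy : y ∈ Ψ '' K) : inv Ψ y ∈ K :=
  Function.invFunOn_mem hy

lemma inv_eq {Ψ : ℂ → ℂ} {y : ℂ} (hy : y ∈ Ψ '' K) : Ψ (inv Ψ y) = y :=
  Function.invFunOn_eq hy

lemma inv_cont {Ψ : ℂ → ℂ} (hemb : IsClosedEmbedding (K.domRestrict Ψ)) :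
    ContinuousOn (inv Ψ) (Ψ '' K) := by
  rw [continuousOn_iff_continuous_domRestrict]
  have h1 : Continuous (fun y : Ψ '' K => (⟨inv Ψ y, inv_mem y.2⟩ : K)) := by
    rw [hemb.isInducing.continuous_iff]
    refine continuous_subtype_val.congr (fun y => ?_)
    simp only [Function.comp_apply]
    exact (inv_eq y.2).symm
  exact continuous_subtype_val.comp h1

lemma image_isClosed {Ψ : ℂ → ℂ} (hemb : IsClosedEmbedding (K.domRestrict Ψ)) :
    IsClosed (Ψ '' K) := by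
  have := hemb.isClosed_range
  rwa [range_domRestrict] at this

lemma image_isOpen {Ψ : ℂ → ℂ} (ha : ∀ w : ℂ, 0 ≤ w.re → AnalyticAt ℂ Ψ w)
    (hd : ∀ w : ℂ, 0 ≤ w.re → deriv Ψ w ≠ 0) : IsOpen (Ψ '' H) := by
  rw [isOpen_iff_mem_nhds]
  rintro y ⟨w, hw, rfl⟩
  have hw0 : 0 ≤ w.re := le_of_lt (show 0 < w.re from hw)
  have hs : HasStrictDerivAt Ψ (deriv Ψ w) w := (ha w hw0).hasStrictDerivAt
  rw [← hs.map_nhds_eq (hd w hw0)]
  exact image_mem_map (isOpen_H.mem_nhds hw)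

end SUB

open SUB in
theorem sub (hj : JackStmt) : SubStmt := by
  intro Ψ ha hinj hd hinf g hg hg0 hcond
  have hcΨ : ContinuousOn Ψ K := fun w hw => (ha w hw).continuousAt.continuousWithinAt
  have hemb : IsClosedEmbedding (K.domRestrict Ψ) := closedEmb hcΨ hinj hinf
  have hopen : IsOpen (Ψ '' H) := image_isOpen ha hd
  have hclosed : IsClosed (Ψ '' K) := image_isClosed hemb
  have hHK : Ψ '' H ⊆ Ψ '' K := image_mono H_subset_K
  have hgc : ContinuousOn g (ball 0 1) := hg.continuousOn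
  by_contra hcon
  push Not at hcon
  obtain ⟨z₂, hz₂, hz₂'⟩ := hcon
  have hz₂n : ‖z₂‖ < 1 := by simpa using hz₂
  have hbad₂ : g z₂ ∉ Ψ '' H := by
    rintro ⟨w, hw, hwe⟩
    exact hz₂' w hw hwe.symm
  -- the first bad point
  obtain ⟨z₁, hz₁, hmin⟩ : ∃ z₁ ∈ closedBall (0 : ℂ) ‖z₂‖ ∩ g ⁻¹' (Ψ '' H)ᶜ,
      IsMinOn (fun z : ℂ => ‖z‖) (closedBall (0 : ℂ) ‖z₂‖ ∩ g ⁻¹' (Ψ '' H)ᶜ) z₁ := by
    have hcl : IsClosed (closedBall (0 : ℂ) ‖z₂‖ ∩ g ⁻¹' (Ψ '' H)ᶜ) := by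
      refine ContinuousOn.preimage_isClosed_of_isClosed (hgc.mono ?_) isClosed_closedBall
        hopen.isClosed_compl
      exact closedBall_subset_ball hz₂n
    have hcomp : IsCompact (closedBall (0 : ℂ) ‖z₂‖ ∩ g ⁻¹' (Ψ '' H)ᶜ) :=
      (isCompact_closedBall (0 : ℂ) ‖z₂‖).of_isClosed_subset hcl inter_subset_left
    exact hcomp.exists_isMinOn ⟨z₂, by simp, hbad₂⟩ continuous_norm.continuousOn
  obtain ⟨hz₁b, hz₁H⟩ := hz₁
  have hz₁H' : g z₁ ∉ Ψ '' H := hz₁H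
  have hz₁n : ‖z₁‖ ≤ ‖z₂‖ := by simpa using hz₁b
  have hz₁1 : ‖z₁‖ < 1 := hz₁n.trans_lt hz₂n
  have hz₁ball : z₁ ∈ ball (0 : ℂ) 1 := by simpa using hz₁1
  have hgood : ∀ z : ℂ, ‖z‖ < ‖z₁‖ → g z ∈ Ψ '' H := by
    intro z hz
    by_contra hzH
    have hzm : z ∈ closedBall (0 : ℂ) ‖z₂‖ ∩ g ⁻¹' (Ψ '' H)ᶜ := by
      refine ⟨?_, hzH⟩
      simpa using (hz.le.trans hz₁n)
    have h1 : ‖z₁‖ ≤ ‖z‖ := isMinOn_iff.mp hmin z hzm
    linarith
  have h1H : (1 : ℂ) ∈ H := by simp [H]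
  have hz₁0 : z₁ ≠ 0 := by
    rintro rfl
    apply hz₁H'
    rw [hg0]
    exact mem_image_of_mem _ h1H
  have hz₁pos : 0 < ‖z₁‖ := norm_pos_iff.mpr hz₁0
  have hsub1 : ball (0 : ℂ) ‖z₁‖ ⊆ ball (0 : ℂ) 1 := ball_subset_ball hz₁1.le
  -- `g z₁` lies in the image of the closed half-plane
  have hgz₁K : g z₁ ∈ Ψ '' K := by
    have hcl : z₁ ∈ closure (ball (0 : ℂ) ‖z₁‖) := by
      rw [closure_ball (0 : ℂ) hz₁pos.ne']
      simp
    have hct : ContinuousWithinAt g (ball (0 : ℂ) ‖z₁‖) z₁ :=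
      ((hgc.continuousAt (isOpen_ball.mem_nhds hz₁ball))).continuousWithinAt
    have := hct.mem_closure hcl (t := Ψ '' K) (fun z hz => hHK (hgood z (by simpa using hz)))
    rwa [hclosed.closure_eq] at this
  obtain ⟨w₁, hw₁K, hw₁e⟩ := hgz₁K
  have hw₁re : w₁.re = 0 := by
    have h0 : 0 ≤ w₁.re := hw₁K
    rcases h0.lt_or_eq with h | h
    · exact absurd ⟨w₁, h, hw₁e⟩ hz₁H'
    · exact h.symm
  have hw₁eq : w₁ = (w₁.im : ℝ) * I := by
    apply Complex.ext <;> simp [hw₁re]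
  set τ : ℝ := w₁.im with hτ
  -- the lifted function
  set W : ℂ → ℂ := fun z => inv Ψ (g z) with hW
  have hWe : ∀ z : ℂ, ‖z‖ < ‖z₁‖ → Ψ (W z) = g z := fun z hz => inv_eq (hHK (hgood z hz))
  have hWH : ∀ z : ℂ, ‖z‖ < ‖z₁‖ → W z ∈ H := by
    intro z hz
    obtain ⟨w, hw, hwe⟩ := hgood z hz
    have h1 : W z = w := by
      apply hinj (inv_mem (hHK (hgood z hz))) (H_subset_K hw)
      rw [hwe]
      exact hWe z hz
    rw [h1]
    exact hw
  have hinvd : ∀ z : ℂ, ‖z‖ < ‖z₁‖ → DifferentiableAt ℂ (inv Ψ) (g z) := by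
    intro z hz
    have hmem : Ψ '' K ∈ 𝓝 (g z) := mem_of_superset (hopen.mem_nhds (hgood z hz)) hHK
    have hca : ContinuousAt (inv Ψ) (g z) := (inv_cont hemb).continuousAt hmem
    have hK : 0 ≤ (inv Ψ (g z)).re := inv_mem (hHK (hgood z hz))
    have hs : HasStrictDerivAt Ψ (deriv Ψ (inv Ψ (g z))) (inv Ψ (g z)) :=
      (ha _ hK).hasStrictDerivAt
    have := HasStrictDerivAt.of_local_left_inverse hca hs (hd _ hK)
      (by filter_upwards [hmem] with y hy using inv_eq hy)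
    exact this.hasDerivAt.differentiableAt
  have hWd : DifferentiableOn ℂ W (ball 0 ‖z₁‖) := by
    intro z hz
    have hz' : ‖z‖ < ‖z₁‖ := by simpa using hz
    have hgd : DifferentiableAt ℂ g z := hg.differentiableAt (isOpen_ball.mem_nhds (hsub1 hz))
    exact (DifferentiableAt.comp z (hinvd z hz') hgd).differentiableWithinAt
  have hW0 : W 0 = 1 := by
    have h0 : ‖(0 : ℂ)‖ < ‖z₁‖ := by simpa using hz₁pos
    apply hinj (inv_mem (hHK (hgood 0 h0))) (H_subset_K h1H)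
    rw [← hg0]
    exact hWe 0 h0
  -- the Schwarz lemma
  have hne1 : ∀ w : ℂ, 0 ≤ w.re → w + 1 ≠ 0 := by
    intro w hw h
    have := congrArg Complex.re h
    simp at this
    linarith
  have hcay : ∀ w : ℂ, 0 ≤ w.re → ‖(w - 1) / (w + 1)‖ ≤ 1 := by
    intro w hw
    rw [norm_div, div_le_one (norm_pos_iff.mpr (hne1 w hw))]
    have h1 : ‖w - 1‖ ^ 2 ≤ ‖w + 1‖ ^ 2 := by
      rw [← Complex.normSq_eq_norm_sq, ← Complex.normSq_eq_norm_sq]
      simp only [normSq_apply, sub_re, sub_im, add_re, add_im, one_re, one_im]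
      nlinarith
    exact (sq_le_sq₀ (norm_nonneg _) (norm_nonneg _)).mp h1
  have hSch : ∀ z : ℂ, ‖z‖ < ‖z₁‖ → ‖(W z - 1) / (W z + 1)‖ ≤ ‖z‖ / ‖z₁‖ := by
    intro z hz
    have hωd : DifferentiableOn ℂ (fun z => (W z - 1) / (W z + 1)) (ball 0 ‖z₁‖) := by
      refine (hWd.sub_const 1).div (hWd.add_const 1) ?_
      intro x hx
      exact hne1 _ (H_subset_K (hWH x (by simpa using hx)))
    have hmaps : MapsTo (fun z => (W z - 1) / (W z + 1)) (ball (0 : ℂ) ‖z₁‖)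
        (closedBall ((fun z => (W z - 1) / (W z + 1)) 0) 1) := by
      intro x hx
      simp only [hW0, sub_self, zero_div, mem_closedBall, dist_zero_right]
      exact hcay _ (H_subset_K (hWH x (by simpa using hx)))
    have := dist_le_div_mul_dist_of_mapsTo_ball hωd hmaps (z := z) (by simpa using hz)
    simp only [hW0, sub_self, zero_div, dist_zero_right] at this
    calc ‖(W z - 1) / (W z + 1)‖ ≤ 1 / ‖z₁‖ * ‖z‖ := this
      _ = ‖z‖ / ‖z₁‖ := by ring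
  -- the local inverse at `w₁`
  have hcd : ContDiffAt ℂ 1 Ψ w₁ := (ha w₁ hw₁K).contDiffAt
  have hfd : HasDerivAt Ψ (deriv Ψ w₁) w₁ := (ha w₁ hw₁K).differentiableAt.hasDerivAt
  have hfe := hfd.hasFDerivAt_equiv (hd w₁ hw₁K)
  set ψ : ℂ → ℂ := hcd.localInverse hfe one_ne_zero with hψ
  have hψcd : ContDiffAt ℂ 1 ψ (Ψ w₁) := hcd.to_localInverse hfe one_ne_zero
  have hψ1 : ψ (Ψ w₁) = w₁ := hcd.localInverse_apply_image hfe one_ne_zero
  have hψl : ∀ᶠ x in 𝓝 w₁, ψ (Ψ x) = x :=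
    HasStrictFDerivAt.eventually_left_inverse (hcd.hasStrictFDerivAt' hfe one_ne_zero)
  have hψd : ∀ᶠ y in 𝓝 (Ψ w₁), DifferentiableAt ℂ ψ y := by
    have := hψcd.eventually (by simp)
    filter_upwards [this] with y hy
    exact hy.differentiableAt one_ne_zero
  have hgz₁c : ContinuousAt g z₁ := hgc.continuousAt (isOpen_ball.mem_nhds hz₁ball)
  have hgd₁ : ∀ᶠ z in 𝓝 z₁, DifferentiableAt ℂ g z := by
    filter_upwards [isOpen_ball.mem_nhds hz₁ball] with z hz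
    exact hg.differentiableAt (isOpen_ball.mem_nhds hz)
  have hgt : Tendsto g (𝓝 z₁) (𝓝 (Ψ w₁)) := by
    rw [hw₁e]
    exact hgz₁c
  set φ : ℂ → ℂ := fun z => ψ (g z) with hφ
  have hφ1 : φ z₁ = w₁ := by
    simp only [hφ]
    rw [← hw₁e, hψ1]
  have hφd : ∀ᶠ z in 𝓝 z₁, DifferentiableAt ℂ φ z := by
    filter_upwards [hgd₁, hgt.eventually hψd] with z h1 h2
    exact DifferentiableAt.comp z h2 h1
  have hφc : ContinuousAt φ z₁ := hφd.self_of_nhds.continuousAt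
  have hφne : ∀ᶠ z in 𝓝 z₁, φ z + 1 ≠ 0 := by
    have : ContinuousAt (fun z => φ z + 1) z₁ := hφc.add continuousAt_const
    apply this.eventually_ne
    rw [hφ1]
    exact hne1 _ hw₁K
  -- on the smaller disc `φ` is the lifted function
  have hinvt : Tendsto (inv Ψ) (𝓝[Ψ '' K] (g z₁)) (𝓝 w₁) := by
    have hm : g z₁ ∈ Ψ '' K := ⟨w₁, hw₁K, hw₁e⟩
    have h1 : inv Ψ (g z₁) = w₁ := hinj (inv_mem hm) hw₁K (by rw [inv_eq hm, hw₁e])
    have := inv_cont hemb (g z₁) hm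
    unfold ContinuousWithinAt at this
    rwa [h1] at this
  have hφW : ∀ᶠ z in 𝓝 z₁, ‖z‖ < ‖z₁‖ → φ z = W z := by
    have h1 : ∀ᶠ y in 𝓝[Ψ '' K] (g z₁), ψ (Ψ (inv Ψ y)) = inv Ψ y := hinvt.eventually hψl
    rw [eventually_nhdsWithin_iff] at h1
    filter_upwards [hgz₁c.tendsto.eventually h1] with z hz hzn
    have h2 := hz (hHK (hgood z hzn))
    have h3 : Ψ (inv Ψ (g z)) = g z := hWe z hzn
    rw [h3] at h2
    exact h2
  -- Jack's lemma
  obtain ⟨m, hm1, hm⟩ := hj (fun z => (φ z - 1) / (φ z + 1)) z₁ hz₁0 (by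
      filter_upwards [hφd, hφne] with z h1 h2
      exact (h1.sub_const 1).div (h1.add_const 1) h2) (by
      simp only [hφ1]
      rw [norm_div, div_eq_one_iff_eq (norm_ne_zero_iff.mpr (hne1 w₁ hw₁K))]
      have h1 : ‖w₁ - 1‖ ^ 2 = ‖w₁ + 1‖ ^ 2 := by
        rw [← Complex.normSq_eq_norm_sq, ← Complex.normSq_eq_norm_sq]
        simp only [normSq_apply, sub_re, sub_im, add_re, add_im, one_re, one_im, hw₁re]
        ring
      exact (sq_eq_sq₀ (norm_nonneg _) (norm_nonneg _)).mp h1) (by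
      filter_upwards [hφW] with z h1 h2
      simp only [h1 h2]
      exact hSch z h2)
  -- the computation
  have hφD : HasDerivAt φ (deriv φ z₁) z₁ := hφd.self_of_nhds.hasDerivAt
  have hne₁ : w₁ + 1 ≠ 0 := hne1 w₁ hw₁K
  have hωD : deriv (fun z => (φ z - 1) / (φ z + 1)) z₁ =
      (deriv φ z₁ * (w₁ + 1) - (w₁ - 1) * deriv φ z₁) / (w₁ + 1) ^ 2 := by
    have h := (hφD.sub_const 1).div (hφD.add_const 1) (by rw [hφ1]; exact hne₁)
    rw [hφ1] at h
    exact h.deriv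
  rw [hωD] at hm
  simp only [hφ1] at hm
  have hkey : z₁ * deriv φ z₁ = m * (w₁ ^ 2 - 1) / 2 := by
    field_simp at hm
    linear_combination (1 / 2 : ℂ) * hm
  have hΨφ : deriv g z₁ = deriv Ψ w₁ * deriv φ z₁ := by
    have h1 : HasDerivAt (fun z => Ψ (φ z)) (deriv Ψ w₁ * deriv φ z₁) z₁ := by
      have h2 : HasDerivAt Ψ (deriv Ψ w₁) (φ z₁) := by
        rw [hφ1]
        exact hfd
      exact h2.comp z₁ hφD
    have hr : ∀ᶠ z in 𝓝 z₁, Ψ (φ z) = g z := by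
      have h3 : ∀ᶠ y in 𝓝 (Ψ w₁), Ψ (ψ y) = y :=
        HasStrictFDerivAt.eventually_right_inverse (hcd.hasStrictFDerivAt' hfe one_ne_zero)
      exact hgt.eventually h3
    have h4 : HasDerivAt g (deriv Ψ w₁ * deriv φ z₁) z₁ :=
      h1.congr_of_eventuallyEq (hr.mono (fun z hz => hz.symm))
    exact h4.deriv
  apply hcond z₁ hz₁ball τ m hm1
  · rw [← hw₁eq]
    exact hw₁e.symm
  · rw [← hw₁eq, hΨφ]
    have hw2 : w₁ ^ 2 = -(τ : ℂ) ^ 2 := by
      rw [hw₁eq, mul_pow, I_sq]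
      ring
    have : z₁ * (deriv Ψ w₁ * deriv φ z₁) = deriv Ψ w₁ * (m * (w₁ ^ 2 - 1) / 2) := by
      rw [← hkey]
      ring
    rw [this, hw2]
    ring

end Pool.Agent.TH337.AC
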